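import Pool.Agent.W_2cf66e_h59.LR1

/-!
# MP_2cf66e_nt, reciprocals, leaf R10: the double integral

The space `ℝ^(n+1)` is split as (coordinate `0`) times (the other coordinates); for each fixed
value of the other coordinates the integral in the coordinate `0` is the integral of the
reciprocal kernel.
-/

set_option autoImplicit false

noncomputable section

open MeasureTheory MvPolynomial

namespace Pool.Agent.R59

/-- The double integral, with the inner integral as a hypothesis. -/
theorem rec_prod14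
    (hrec : ∀ {u w : ℝ}, 0 < u → u ≤ w → 1 < 4 * w →
      Integrable (fun b : ℝ => rc u w b) ∧
        ∫ b : ℝ, rc u w b = Real.pi * ((u + w) / (u ^ 2 + u + w)))
    {n : ℕ} (u w : (Fin n → ℝ) → ℝ) (hu : Continuous u) (hw : Continuous w)
    (h : ∀ z, 1 ≤ u z ∧ u z ≤ w z) :
    (Integrable (fun z : Fin (n + 1) → ℝ => rc (u (Fin.tail z)) (w (Fin.tail z)) (z 0)) ↔
      Integrable (fun z => (u z + w z) / ((u z) ^ 2 + u z + w z))) ∧
    ∫ z : Fin (n + 1) → ℝ, rc (u (Fin.tail z)) (w (Fin.tail z)) (z 0) =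
      Real.pi * ∫ z, (u z + w z) / ((u z) ^ 2 + u z + w z) := by
  classical
  set e := MeasurableEquiv.piFinSuccAbove (fun _ : Fin (n + 1) => ℝ) 0 with he
  have hmp : MeasurePreserving e volume volume :=
    volume_preserving_piFinSuccAbove (fun _ : Fin (n + 1) => ℝ) 0
  set G : ℝ × (Fin n → ℝ) → ℝ := fun p => rc (u p.2) (w p.2) p.1 with hG
  have hGe : ∀ z : Fin (n + 1) → ℝ, G (e z) = rc (u (Fin.tail z)) (w (Fin.tail z)) (z 0) := by
    intro z
    simp only [hG, he]
    rfl
  have hfun : (fun z : Fin (n + 1) → ℝ => rc (u (Fin.tail z)) (w (Fin.tail z)) (z 0)) =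
      G ∘ e := by
    funext z
    exact (hGe z).symm
  have hGm : Measurable G := by
    have h1 : Measurable fun p : ℝ × (Fin n → ℝ) => u p.2 := hu.measurable.comp measurable_snd
    have h2 : Measurable fun p : ℝ × (Fin n → ℝ) => w p.2 := hw.measurable.comp measurable_snd
    have h3 : Measurable fun p : ℝ × (Fin n → ℝ) => p.1 := measurable_fst
    simp only [hG, rc]
    fun_prop
  have hin : ∀ z : Fin n → ℝ, Integrable (fun b : ℝ => G (b, z)) ∧
      ∫ b : ℝ, G (b, z) = Real.pi * ((u z + w z) / ((u z) ^ 2 + u z + w z)) := by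
    intro z
    obtain ⟨h1, h2⟩ := h z
    exact hrec (u := u z) (w := w z) (lt_of_lt_of_le one_pos h1) h2 (by linarith)
  have hpos : ∀ (z : Fin n → ℝ) (b : ℝ), 0 ≤ G (b, z) := by
    intro z b
    simp only [hG, rc]
    positivity
  have hnorm : ∀ z : Fin n → ℝ, ∫ b : ℝ, ‖G (b, z)‖ =
      Real.pi * ((u z + w z) / ((u z) ^ 2 + u z + w z)) := by
    intro z
    have h1 : (fun b : ℝ => ‖G (b, z)‖) = fun b : ℝ => G (b, z) :=
      funext fun b => Real.norm_of_nonneg (hpos z b)
    rw [h1]
    exact (hin z).2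
  have hI1 : Integrable (G ∘ e) ↔ Integrable G (volume : Measure (ℝ × (Fin n → ℝ))) :=
    hmp.integrable_comp_emb e.measurableEmbedding
  have hI2 : Integrable G (volume : Measure (ℝ × (Fin n → ℝ))) ↔
      Integrable (fun z => (u z + w z) / ((u z) ^ 2 + u z + w z)) := by
    have hv : (volume : Measure (ℝ × (Fin n → ℝ))) =
        (volume : Measure ℝ).prod (volume : Measure (Fin n → ℝ)) := rfl
    rw [hv, integrable_prod_iff' hGm.aestronglyMeasurable]
    constructor
    · rintro ⟨-, h2⟩
      have h3 : Integrable (fun z => Real.pi * ((u z + w z) / ((u z) ^ 2 + u z + w z))) := by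
        refine h2.congr (Filter.Eventually.of_forall fun z => ?_)
        exact hnorm z
      exact (integrable_const_mul_iff (isUnit_iff_ne_zero.2 Real.pi_ne_zero) _).1 h3
    · intro h2
      refine ⟨Filter.Eventually.of_forall fun z => (hin z).1, ?_⟩
      have h3 := h2.const_mul Real.pi
      refine h3.congr (Filter.Eventually.of_forall fun z => ?_)
      exact (hnorm z).symm
  refine ⟨by rw [hfun, hI1, hI2], ?_⟩
  rw [hfun]
  by_cases hint : Integrable G (volume : Measure (ℝ × (Fin n → ℝ)))
  · have h1 : ∫ z, (G ∘ e) z = ∫ p, G p := hmp.integral_comp e.measurableEmbedding G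
    rw [h1]
    have hv : (volume : Measure (ℝ × (Fin n → ℝ))) =
        (volume : Measure ℝ).prod (volume : Measure (Fin n → ℝ)) := rfl
    rw [hv] at hint ⊢
    rw [integral_prod_symm _ hint, ← integral_const_mul]
    refine integral_congr_ae (Filter.Eventually.of_forall fun z => ?_)
    exact (hin z).2
  · rw [integral_undef (fun hc => hint (hI1.1 hc)),
      integral_undef (fun hc => hint (hI2.2 hc)), mul_zero]

/-- The double integral. -/
theorem rec_prod {n : ℕ} (u w : (Fin n → ℝ) → ℝ) (hu : Continuous u) (hw : Continuous w)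
    (h : ∀ z, 1 ≤ u z ∧ u z ≤ w z) :
    (Integrable (fun z : Fin (n + 1) → ℝ => rc (u (Fin.tail z)) (w (Fin.tail z)) (z 0)) ↔
      Integrable (fun z => (u z + w z) / ((u z) ^ 2 + u z + w z))) ∧
    ∫ z : Fin (n + 1) → ℝ, rc (u (Fin.tail z)) (w (Fin.tail z)) (z 0) =
      Real.pi * ∫ z, (u z + w z) / ((u z) ^ 2 + u z + w z) :=
  rec_prod14 (fun hu huw hw => recip hu huw hw) u w hu hw h

end Pool.Agent.R59
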