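import Pool.Agent.W_2cf66e_h59.LR3

/-!
# MP_2cf66e_nt, reciprocals, leaf R8 (helper35): the average of the translates
-/

set_option autoImplicit false

noncomputable section

open MeasureTheory MvPolynomial

namespace Pool.Agent.R59

/-- Some translate is far from all the coordinates. -/
theorem far35 {N : ℕ} (y : Fin N → ℝ) : ∃ j ∈ Finset.range (N + 1), ∀ i : Fin N,
    (1 / 2 : ℝ) ≤ |y i - (j : ℕ)| := by
  by_contra hcon
  push Not at hcon
  choose f hf using hcon
  have hle : (Finset.range (N + 1)).attach.card ≤ (Finset.univ : Finset (Fin N)).card := by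
    refine Finset.card_le_card_of_injOn (fun j => f j.1 j.2) (fun _ _ => Finset.mem_univ _) ?_
    intro a _ b _ hab
    have ha := hf a.1 a.2
    have hb := hf b.1 b.2
    have hab' : f a.1 a.2 = f b.1 b.2 := hab
    rw [hab'] at ha
    rw [abs_lt] at ha hb
    have h1 : (a.1 : ℝ) < (b.1 : ℝ) + 1 := by linarith [ha.1, hb.2]
    have h2 : (b.1 : ℝ) < (a.1 : ℝ) + 1 := by linarith [hb.1, ha.2]
    have h3 : a.1 < b.1 + 1 := by exact_mod_cast h1
    have h4 : b.1 < a.1 + 1 := by exact_mod_cast h2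
    exact Subtype.ext (by omega)
  rw [Finset.card_attach, Finset.card_range, Finset.card_univ, Fintype.card_fin] at hle
  omega

/-- The average of the translates. -/
theorem spread {N : ℕ} (κ : ℚ) (hκ : 0 < κ) (F : (Fin (N + 1) → ℝ) → ℝ)
    (hF : PG (fun z => (κ : ℝ) * TT z ^ 2) F) (h1 : ∀ z, F z ≤ 1 / 2) (hi : Integrable F) :
    ∃ (κ' : ℚ) (G : (Fin (N + 1) → ℝ) → ℝ), 0 < κ' ∧ PG (fun _ => (κ' : ℝ)) G ∧
      (∀ z, G z ≤ 1 / 2) ∧ Integrable G ∧ ∫ z, G z = ∫ z, F z := by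
  obtain ⟨v, hv⟩ : ∃ v : ℕ → Fin (N + 1) → ℚ,
      v = fun (j : ℕ) => (Fin.cons (0 : ℚ) (fun _ : Fin N => (j : ℚ)) : Fin (N + 1) → ℚ) :=
    ⟨_, rfl⟩
  obtain ⟨q, hq⟩ : ∃ q : ℚ, q = ((N : ℚ) + 1)⁻¹ := ⟨_, rfl⟩
  have hq0 : 0 < q := by
    rw [hq]
    positivity
  have hqr : (q : ℝ) * ((N : ℝ) + 1) = 1 := by
    rw [hq]
    push_cast
    exact inv_mul_cancel₀ (by positivity)
  have hκr : (0 : ℝ) < κ := by exact_mod_cast hκ
  have hqr0 : (0 : ℝ) < q := by exact_mod_cast hq0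
  have hpg : PG (fun z => (q : ℝ) * ∑ j ∈ Finset.range (N + 1),
        (κ : ℝ) * TT (fun i => z i - (v j i : ℝ)) ^ 2)
      (fun z => (q : ℝ) * ∑ j ∈ Finset.range (N + 1), F (fun i => z i - (v j i : ℝ))) := by
    refine PG.smul (PG.sum (Finset.range (N + 1))
      (c := fun j z => (κ : ℝ) * TT (fun i => z i - (v j i : ℝ)) ^ 2)
      (f := fun j z => F (fun i => z i - (v j i : ℝ))) (fun j _ => PG.shift hF (v j)) ?_) q hq0
    intro j _ z
    positivity
  refine ⟨q * (κ * (1 / 4) ^ N), fun z => (q : ℝ) * ∑ j ∈ Finset.range (N + 1),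
    F (fun i => z i - (v j i : ℝ)), by positivity, hpg.mono ?_, ?_, ?_, ?_⟩
  · intro z
    push_cast
    refine mul_le_mul_of_nonneg_left ?_ hqr0.le
    obtain ⟨j, hj, hfar⟩ := far35 (fun i : Fin N => z i.succ)
    refine le_trans ?_ (Finset.single_le_sum
      (f := fun j => (κ : ℝ) * TT (fun i => z i - (v j i : ℝ)) ^ 2)
      (fun j _ => by positivity) hj)
    refine mul_le_mul_of_nonneg_left ?_ hκr.le
    have hT : TT (fun i => z i - (v j i : ℝ)) ^ 2 =
        ∏ i : Fin N, (z i.succ - (j : ℝ)) ^ 2 := by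
      rw [TT, ← Finset.prod_pow]
      refine Finset.prod_congr rfl fun i _ => ?_
      simp [hv]
    rw [hT]
    have hc : (1 / 4 : ℝ) ^ N = ∏ _i : Fin N, (1 / 4 : ℝ) := by simp
    rw [hc]
    refine Finset.prod_le_prod (fun i _ => by norm_num) fun i _ => ?_
    have h2 := hfar i
    rw [← sq_abs]
    nlinarith [h2, abs_nonneg (z i.succ - (j : ℝ))]
  · intro z
    have h2 : ∑ j ∈ Finset.range (N + 1), F (fun i => z i - (v j i : ℝ)) ≤
        ∑ _j ∈ Finset.range (N + 1), (1 / 2 : ℝ) := Finset.sum_le_sum fun j _ => h1 _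
    rw [Finset.sum_const, Finset.card_range, nsmul_eq_mul] at h2
    push_cast at h2
    have h3 := mul_le_mul_of_nonneg_left h2 hqr0.le
    calc (q : ℝ) * ∑ j ∈ Finset.range (N + 1), F (fun i => z i - (v j i : ℝ))
        ≤ (q : ℝ) * (((N : ℝ) + 1) * (1 / 2)) := h3
      _ = ((q : ℝ) * ((N : ℝ) + 1)) * (1 / 2) := by ring
      _ = 1 / 2 := by rw [hqr]; norm_num
  · refine Integrable.const_mul (integrable_finset_sum _ fun j _ => ?_) _
    exact hi.comp_sub_right (fun i => (v j i : ℝ))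
  · have hint : ∀ j ∈ Finset.range (N + 1),
        Integrable fun z : Fin (N + 1) → ℝ => F (fun i => z i - (v j i : ℝ)) :=
      fun j _ => hi.comp_sub_right (fun i => (v j i : ℝ))
    rw [integral_const_mul, integral_finset_sum _ hint]
    have h2 : ∀ j ∈ Finset.range (N + 1),
        ∫ z : Fin (N + 1) → ℝ, F (fun i => z i - (v j i : ℝ)) = ∫ z, F z :=
      fun j _ => integral_sub_right_eq_self F (fun i => (v j i : ℝ))
    rw [Finset.sum_congr rfl h2, Finset.sum_const, Finset.card_range, nsmul_eq_mul, ← mul_assoc]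
    push_cast
    rw [hqr, one_mul]

end Pool.Agent.R59
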