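import Pool.Agent.W_2cf66e_h59.DefsR
import Pool.Agent.W_2cf66e_h88.LoL

/-!
# MP_2cf66e_nt, reciprocals, leaf R9: integer coefficients (helper68)
-/

set_option autoImplicit false

noncomputable section

open MeasureTheory MvPolynomial

namespace Pool.Agent.R59

theorem clearR68 {n : ℕ} (f : MvPolynomial (Fin n) ℚ) :
    ∃ (D : ℕ) (F : MvPolynomial (Fin n) ℤ), 0 < D ∧ ∀ z : Fin n → ℝ,
      (aeval z F : ℝ) = (D : ℝ) * aeval z f := by
  obtain ⟨D, F, hD, hF⟩ := Pool.Agent.WSP.clear_den68 f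
  refine ⟨D, F, hD, fun z => ?_⟩
  have h2 : (aeval z (MvPolynomial.map (Int.castRingHom ℚ) F) : ℝ) = aeval z F :=
    MvPolynomial.aeval_map_algebraMap (A := ℚ) (B := ℝ) z F
  rw [← h2, hF, map_mul, MvPolynomial.aeval_C]
  simp

theorem clearZ {n : ℕ} (κ : ℚ) (hκ : 0 < κ) (G : (Fin n → ℝ) → ℝ)
    (hG : PG (fun _ => (κ : ℝ)) G) (h1 : ∀ z, G z ≤ 1 / 2) :
    ∃ A B : MvPolynomial (Fin n) ℤ, ∀ z : Fin n → ℝ, 2 ≤ (aeval z A : ℝ) ∧
      2 * (aeval z A : ℝ) ≤ aeval z B ∧ G z = (aeval z A : ℝ) / aeval z B := by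
  obtain ⟨A, B, hAB⟩ := hG
  obtain ⟨D₁, A', hD1, hA⟩ := clearR68 A
  obtain ⟨D₂, B', hD2, hB⟩ := clearR68 B
  have hκ' : (0 : ℝ) < κ := by exact_mod_cast hκ
  obtain ⟨K, hK⟩ := exists_nat_ge (2 / (κ : ℝ))
  have hK2 : 2 ≤ (K : ℝ) * κ := by
    have := mul_le_mul_of_nonneg_right hK hκ'.le
    rwa [div_mul_cancel₀ _ hκ'.ne'] at this
  have hKpos : (0 : ℝ) < K := by
    rcases (Nat.cast_nonneg K : (0 : ℝ) ≤ K).lt_or_eq with h | h
    · exact h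
    · rw [← h, zero_mul] at hK2
      norm_num at hK2
  have hD1' : (1 : ℝ) ≤ D₁ := by exact_mod_cast hD1
  have hD2' : (1 : ℝ) ≤ D₂ := by exact_mod_cast hD2
  refine ⟨((K * D₂ : ℕ) : MvPolynomial (Fin n) ℤ) * A',
    ((K * D₁ : ℕ) : MvPolynomial (Fin n) ℤ) * B', fun z => ?_⟩
  obtain ⟨hB1, hA1, hG1⟩ := hAB z
  have e1 : (aeval z (((K * D₂ : ℕ) : MvPolynomial (Fin n) ℤ) * A') : ℝ) =
      (K * D₂ * D₁ : ℝ) * aeval z A := by
    rw [map_mul, map_natCast, hA z]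
    push_cast
    ring
  have e2 : (aeval z (((K * D₁ : ℕ) : MvPolynomial (Fin n) ℤ) * B') : ℝ) =
      (K * D₂ * D₁ : ℝ) * aeval z B := by
    rw [map_mul, map_natCast, hB z]
    push_cast
    ring
  have hDD : (1 : ℝ) ≤ D₂ * D₁ := by nlinarith
  have hM : (0 : ℝ) < K * D₂ * D₁ := by positivity
  have h2AB : 2 * (aeval z A : ℝ) ≤ aeval z B := by
    have h := h1 z
    rw [hG1, div_le_iff₀ (by linarith)] at h
    linarith
  rw [e1, e2]
  refine ⟨?_, ?_, ?_⟩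
  · calc (2 : ℝ) ≤ K * κ := hK2
      _ ≤ (K * κ) * (D₂ * D₁) := le_mul_of_one_le_right (by positivity) hDD
      _ = (K * D₂ * D₁) * κ := by ring
      _ ≤ (K * D₂ * D₁) * aeval z A := mul_le_mul_of_nonneg_left hA1 hM.le
  · have := mul_le_mul_of_nonneg_left h2AB hM.le
    linarith
  · rw [hG1, mul_div_mul_left _ _ hM.ne']

end Pool.Agent.R59
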