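import Pool.Agent.W_2cf66e_h59.LR7
import Pool.Agent.W_2cf66e_h59.LR8
import Pool.Agent.W_2cf66e_h59.LR9
import Pool.Agent.W_2cf66e_h59.LR10
import Pool.Agent.W_2cf66e_h3.Per
import Pool.Agent.W_2cf66e_h92.DetForm

/-!
# MP_2cf66e_nt, reciprocals: leaf R11, the forward direction (helper59)
-/

set_option autoImplicit false

noncomputable section

open MeasureTheory MvPolynomial

namespace Pool.Agent.R59

theorem cont59 {n : ℕ} (f : MvPolynomial (Fin n) ℤ) :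
    Continuous fun z : Fin n → ℝ => (aeval z f : ℝ) := by
  have h : (fun z : Fin n → ℝ => (aeval z f : ℝ)) =
      fun z => eval z (map (algebraMap ℤ ℝ) f) := by
    funext z; rw [eval_map, aeval_def]
  rw [h]; exact continuous_eval _

theorem per_pos {x : ℝ} (hx : 0 < x) (h : CVol.IsPeriod x) :
    ∃ (n : ℕ) (A B : MvPolynomial (Fin (n + 1)) ℤ),
      (∀ z : Fin (n + 1) → ℝ, 2 ≤ (aeval z A : ℝ) ∧ 2 * (aeval z A : ℝ) ≤ aeval z B) ∧
      Integrable (fun z : Fin (n + 1) → ℝ => (aeval z A : ℝ) / aeval z B) ∧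
      ∫ z : Fin (n + 1) → ℝ, (aeval z A : ℝ) / aeval z B = Real.pi * x := by
  obtain ⟨N, κ, F, hκ, hPG, hle, hi, hv⟩ := kform (OneIneq.period_av h) hx
  obtain ⟨κ', G, hκ', hPG', hle', hi', hv'⟩ := spread κ hκ F hPG hle hi
  obtain ⟨A, B, hAB⟩ := clearZ κ' hκ' G hPG' hle'
  have hG : G = fun z : Fin (N + 1) → ℝ => (aeval z A : ℝ) / aeval z B :=
    funext fun z => (hAB z).2.2
  rw [hG] at hi' hv'
  exact ⟨N, A, B, fun z => ⟨(hAB z).1, (hAB z).2.1⟩, hi', hv'.trans hv⟩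

theorem per_uw {x : ℝ} (hx : 0 < x) (h : CVol.IsPeriod x) :
    ∃ (n : ℕ) (u w : MvPolynomial (Fin (n + 1)) ℤ),
      (∀ z : Fin (n + 1) → ℝ, 1 ≤ (aeval z u : ℝ) ∧ (aeval z u : ℝ) ≤ aeval z w) ∧
      Integrable (fun z : Fin (n + 2) → ℝ =>
        rc (aeval (Fin.tail z) u) (aeval (Fin.tail z) w) (z 0)) ∧
      ∫ z : Fin (n + 2) → ℝ, rc (aeval (Fin.tail z) u) (aeval (Fin.tail z) w) (z 0) =
        Real.pi ^ 2 * x := by
  obtain ⟨n, A, B, hAB, hi, hv⟩ := per_pos hx h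
  have hu : ∀ z : Fin (n + 1) → ℝ, (aeval z (B - A) : ℝ) = aeval z B - aeval z A :=
    fun z => by rw [map_sub]
  have hw : ∀ z : Fin (n + 1) → ℝ, (aeval z ((B - A) * (A - 1)) : ℝ) =
      (aeval z B - aeval z A) * (aeval z A - 1) := fun z => by
    rw [map_mul, map_sub, map_sub, map_one]
  have hge : ∀ z : Fin (n + 1) → ℝ, 1 ≤ (aeval z (B - A) : ℝ) ∧
      (aeval z (B - A) : ℝ) ≤ aeval z ((B - A) * (A - 1)) := by
    intro z
    rw [hu, hw]
    obtain ⟨h1, h2⟩ := hAB z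
    constructor
    · linarith
    · nlinarith
  have hfr : ∀ z : Fin (n + 1) → ℝ, ((aeval z (B - A) : ℝ) + aeval z ((B - A) * (A - 1))) /
      ((aeval z (B - A) : ℝ) ^ 2 + aeval z (B - A) + aeval z ((B - A) * (A - 1))) =
      (aeval z A : ℝ) / aeval z B := by
    intro z
    rw [hu, hw]
    obtain ⟨h1, h2⟩ := hAB z
    have h3 : (0 : ℝ) < aeval z B - aeval z A := by linarith
    have h4 : (0 : ℝ) < aeval z B := by linarith
    rw [div_eq_div_iff (by nlinarith [mul_pos h3 h4]) h4.ne']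
    ring
  obtain ⟨hii, hvv⟩ := rec_prod (fun z : Fin (n + 1) → ℝ => (aeval z (B - A) : ℝ))
    (fun z => (aeval z ((B - A) * (A - 1)) : ℝ)) (cont59 _) (cont59 _) hge
  simp only [hfr] at hii hvv
  refine ⟨n, B - A, (B - A) * (A - 1), hge, hii.2 hi, ?_⟩
  rw [hvv, hv]
  ring

theorem per_det {x : ℝ} (hx : 0 < x) (h : CVol.IsPeriod x) :
    ∃ (n N : ℕ) (c : Fin N → Fin N → Fin (n + 2)),
      (∀ z : Fin n → ℝ, 0 < (OneIneq.mat c z).det) ∧
      Integrable (fun z : Fin n → ℝ => 1 / (OneIneq.mat c z).det) ∧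
      ∫ z : Fin n → ℝ, 1 / (OneIneq.mat c z).det = Real.pi ^ 2 * x := by
  obtain ⟨n, u, w, huw, hi, hv⟩ := per_uw hx h
  obtain ⟨Q, hQ⟩ : ∃ Q : MvPolynomial (Fin (n + 2)) ℤ, Q =
      (1 + (rename Fin.succ u) ^ 2 * X 0 ^ 2) *
        ((1 - rename Fin.succ w * X 0 ^ 2) ^ 2 + X 0 ^ 2) := ⟨_, rfl⟩
  have hQv : ∀ z : Fin (n + 2) → ℝ, 1 / (aeval z Q : ℝ) =
      rc (aeval (Fin.tail z) u) (aeval (Fin.tail z) w) (z 0) := by
    intro z
    rw [hQ]
    simp only [map_mul, map_add, map_sub, map_one, map_pow, aeval_X, aeval_rename]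
    rfl
  obtain ⟨N, c, hc⟩ : ∃ (N : ℕ) (c : Fin N → Fin N → Fin (n + 2 + 2)),
      ∀ u : Fin (n + 2) → ℝ, (OneIneq.mat c u).det = (aeval u Q : ℝ) :=
    Pool.Agent.DF2cf.exists_det_eval Q
  refine ⟨n + 2, N, c, fun z => ?_, ?_, ?_⟩
  · rw [hc z, hQ]
    simp only [map_mul, map_add, map_sub, map_one, map_pow, aeval_X, aeval_rename]
    obtain ⟨h1, h2⟩ := huw (Fin.tail z)
    refine mul_pos (by positivity) ?_
    by_cases h3 : z 0 = 0
    · rw [h3]; norm_num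
    · have h4 : 0 < z 0 ^ 2 := by positivity
      positivity
  · simp only [hc, hQv]; exact hi
  · simp only [hc, hQv]; exact hv

end Pool.Agent.R59
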