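import Pool.Agent.W_2cf66e_h59.DefsR
import Pool.Agent.W_2cf66e_h23.Back

/-!
# MP_2cf66e_nt, reciprocals: the converses (helper61)
-/

set_option autoImplicit false

noncomputable section

open MeasureTheory MvPolynomial

namespace Pool.Agent.R59

theorem map_int61 {n : ℕ} (A : MvPolynomial (Fin n) ℤ) (z : Fin n → ℝ) :
    (aeval z (MvPolynomial.map (algebraMap ℤ ℚ) A) : ℝ) = aeval z A :=
  MvPolynomial.aeval_map_algebraMap ℚ z A

theorem pos_per {n : ℕ} (A B : MvPolynomial (Fin (n + 1)) ℤ)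
    (hi : Integrable (fun z : Fin (n + 1) → ℝ => (aeval z A : ℝ) / aeval z B)) :
    CVol.IsPeriod (Real.pi⁻¹ * ∫ z : Fin (n + 1) → ℝ, (aeval z A : ℝ) / aeval z B) := by
  have h := WSP.back (MvPolynomial.map (algebraMap ℤ ℚ) A) (MvPolynomial.map (algebraMap ℤ ℚ) B)
    (by simpa only [map_int61] using hi)
  simpa only [map_int61] using h

theorem rec_per {n : ℕ} (Q : MvPolynomial (Fin n) ℤ)
    (hi : Integrable (fun z : Fin n → ℝ => 1 / (aeval z Q : ℝ))) :
    CVol.IsPeriod (∫ z : Fin n → ℝ, 1 / (aeval z Q : ℝ)) := by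
  have hs : {x : Fin n → ℝ | ∃ _j : Fin 1, ∀ _i : Fin 0,
      0 < (aeval x (0 : MvPolynomial (Fin n) ℚ) : ℝ)} = Set.univ := by
    ext x
    simp
  refine ⟨n, 1, MvPolynomial.map (algebraMap ℤ ℚ) Q, 1, 0, fun _ _ => 0, ?_, ?_⟩
  · rw [hs, integrableOn_univ]
    simpa only [map_int61, map_one] using hi
  · rw [hs, Measure.restrict_univ]
    simp only [map_int61, map_one]

theorem vol_per {n m : ℕ} (q : Fin m → MvPolynomial (Fin n) ℚ) {y : ℝ} (hy : 0 ≤ y)
    (h : volume {w : Fin n → ℝ | ∑ i, ((aeval w (q i) : ℝ)) ^ 2 < 1} = ENNReal.ofReal y) :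
    CVol.IsPeriod y := by
  rcases hy.lt_or_eq with h0 | h0
  · have hs : CVol.IsSA {w : Fin n → ℝ | ∑ i, ((aeval w (q i) : ℝ)) ^ 2 < 1} := by
      have h1 : {w : Fin n → ℝ | ∑ i, ((aeval w (q i) : ℝ)) ^ 2 < 1} =
          {w : Fin n → ℝ | 0 < (aeval w (1 - ∑ i, (q i) ^ 2) : ℝ)} := by
        ext w
        simp only [Set.mem_setOf_eq, map_sub, map_one, map_sum, map_pow, sub_pos]
      rw [h1]
      exact CVol.IsSA.pos _
    exact CVol.period_of_volume hs y h0 h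
  · rw [← h0]
    exact WSP.period_zero

end Pool.Agent.R59
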