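import Pool.Agent.W_2cf66e_h59.LR13

/-!
# MP_2cf66e_nt, reciprocals: leaf R14, the quartic body (helper57)
-/

set_option autoImplicit false

noncomputable section

open MeasureTheory MvPolynomial

namespace Pool.Agent.R59

/-- The entries of the matrix as polynomials. -/
def ent57 {n k : ℕ} (a : Fin (n + 2)) : MvPolynomial (Fin n ⊕ (Fin k ⊕ Fin k)) ℚ :=
  (Fin.cons 0 (Fin.cons 1 fun i => X (Sum.inl i)) :
    Fin (n + 2) → MvPolynomial (Fin n ⊕ (Fin k ⊕ Fin k)) ℚ) a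

theorem ent57_deg {n k : ℕ} (a : Fin (n + 2)) : (ent57 (k := k) a).totalDegree ≤ 1 := by
  unfold ent57
  refine Fin.cases ?_ (fun b => ?_) a
  · simp
  · rw [Fin.cons_succ]
    refine Fin.cases ?_ (fun d => ?_) b
    · simp
    · rw [Fin.cons_succ, totalDegree_X]

theorem ent57_val {n k : ℕ} (a : Fin (n + 2)) (w : Fin n ⊕ (Fin k ⊕ Fin k) → ℝ) :
    (aeval w (ent57 (k := k) a) : ℝ) =
      (Fin.cons 0 (Fin.cons 1 fun i => w (Sum.inl i)) : Fin (n + 2) → ℝ) a := by
  unfold ent57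
  refine Fin.cases ?_ (fun b => ?_) a
  · simp
  · rw [Fin.cons_succ, Fin.cons_succ]
    refine Fin.cases ?_ (fun d => ?_) b
    · simp
    · simp

/-- The quadratic polynomials. -/
def qu57 {n k : ℕ} (c : Fin k → Fin k → Fin (n + 2)) :
    Fin k ⊕ Fin k → MvPolynomial (Fin n ⊕ (Fin k ⊕ Fin k)) ℚ
  | Sum.inl i => ∑ j : Fin k, ent57 (k := k) (c i j) * X (Sum.inr (Sum.inl j))
  | Sum.inr i => C (1 / (((i : ℕ) : ℚ) + 1)) * X (Sum.inr (Sum.inr i))

theorem qu57_deg {n k : ℕ} (c : Fin k → Fin k → Fin (n + 2)) (i : Fin k ⊕ Fin k) :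
    (qu57 c i).totalDegree ≤ 2 := by
  rcases i with i | i
  · simp only [qu57]
    refine totalDegree_finsetSum_le fun j _ => ?_
    refine (totalDegree_mul _ _).trans ?_
    have := ent57_deg (k := k) (c i j)
    rw [totalDegree_X]
    omega
  · simp only [qu57]
    refine (totalDegree_mul _ _).trans ?_
    rw [totalDegree_X, totalDegree_C]
    omega

theorem qu57_val {n k : ℕ} (c : Fin k → Fin k → Fin (n + 2)) (w : Fin n ⊕ (Fin k ⊕ Fin k) → ℝ) :
    ∑ i, ((aeval w (qu57 c i) : ℝ)) ^ 2 =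
      ∑ i, ((OneIneq.mat c fun a => w (Sum.inl a)).mulVec (fun j => w (Sum.inr (Sum.inl j))) i) ^ 2 +
      ∑ i : Fin k, (w (Sum.inr (Sum.inr i)) / ((i : ℕ) + 1)) ^ 2 := by
  rw [Fintype.sum_sum_type]
  congr 1
  · refine Finset.sum_congr rfl fun i _ => ?_
    congr 1
    simp only [qu57, map_sum, map_mul, aeval_X, ent57_val]
    rfl
  · refine Finset.sum_congr rfl fun i _ => ?_
    congr 1
    simp only [qu57, map_mul, aeval_X, aeval_C]
    simp [div_eq_inv_mul]

theorem vol_quad {n k : ℕ} (c : Fin k → Fin k → Fin (n + 2))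
    (hd : ∀ z : Fin n → ℝ, 0 < (OneIneq.mat c z).det)
    (hi : Integrable (fun z : Fin n → ℝ => 1 / (OneIneq.mat c z).det)) :
    ∃ (M m : ℕ) (q : Fin m → MvPolynomial (Fin M) ℚ), (∀ i, (q i).totalDegree ≤ 2) ∧
      volume {w : Fin M → ℝ | ∑ i, ((aeval w (q i) : ℝ)) ^ 2 < 1} =
        ENNReal.ofReal (Real.pi ^ k * ∫ z : Fin n → ℝ, 1 / (OneIneq.mat c z).det) := by
  classical
  set e := Fintype.equivFin (Fin n ⊕ (Fin k ⊕ Fin k)) with he
  set e' := Fintype.equivFin (Fin k ⊕ Fin k) with he'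
  refine ⟨_, _, fun i => rename e (qu57 c (e'.symm i)), fun i =>
    (totalDegree_rename_le _ _).trans (qu57_deg _ _), ?_⟩
  -- the set in the sum coordinates
  set S : Set (Fin n ⊕ (Fin k ⊕ Fin k) → ℝ) :=
    {w | ∑ i, ((aeval w (qu57 c i) : ℝ)) ^ 2 < 1} with hS
  have hcont : ∀ p : MvPolynomial (Fin n ⊕ (Fin k ⊕ Fin k)) ℚ,
      Continuous fun w : Fin n ⊕ (Fin k ⊕ Fin k) → ℝ => (aeval w p : ℝ) := by
    intro p
    have h : (fun z : Fin n ⊕ (Fin k ⊕ Fin k) → ℝ => (aeval z p : ℝ)) =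
        fun z => MvPolynomial.eval z (MvPolynomial.map (algebraMap ℚ ℝ) p) := by
      funext z; rw [MvPolynomial.eval_map, MvPolynomial.aeval_def]
    rw [h]; exact MvPolynomial.continuous_eval _
  have hSm : MeasurableSet S :=
    (isOpen_lt (continuous_finsetSum _ fun i _ => (hcont _).pow 2) continuous_const).measurableSet
  have h1 : volume {w : Fin (Fintype.card (Fin n ⊕ (Fin k ⊕ Fin k))) → ℝ |
      ∑ i, ((aeval w (rename e (qu57 c (e'.symm i))) : ℝ)) ^ 2 < 1} = volume S := by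
    have hp := volume_measurePreserving_piCongrLeft (fun _ => ℝ) e
    have hpre : (MeasurableEquiv.piCongrLeft (fun _ => ℝ) e) ⁻¹'
        {w : Fin (Fintype.card (Fin n ⊕ (Fin k ⊕ Fin k))) → ℝ |
          ∑ i, ((aeval w (rename e (qu57 c (e'.symm i))) : ℝ)) ^ 2 < 1} = S := by
      ext w
      change (∑ i, ((aeval (MeasurableEquiv.piCongrLeft (fun _ => ℝ) e w)
        (rename e (qu57 c (e'.symm i))) : ℝ)) ^ 2 < 1) ↔
        ∑ i, ((aeval w (qu57 c i) : ℝ)) ^ 2 < 1
      have hw : (MeasurableEquiv.piCongrLeft (fun _ => ℝ) e w : _ → ℝ) ∘ e = w := by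
        funext a
        simp only [Function.comp]
        exact MeasurableEquiv.piCongrLeft_apply_apply (β := fun _ => ℝ) e w a
      simp only [aeval_rename, hw]
      rw [Equiv.sum_comp e'.symm (fun i => ((aeval w (qu57 c i) : ℝ)) ^ 2)]
    rw [← hpre]
    refine (hp.measure_preimage ?_).symm
    refine (MeasurableSet.nullMeasurableSet ?_)
    have : {w : Fin (Fintype.card (Fin n ⊕ (Fin k ⊕ Fin k))) → ℝ |
        ∑ i, ((aeval w (rename e (qu57 c (e'.symm i))) : ℝ)) ^ 2 < 1} =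
        (MeasurableEquiv.piCongrLeft (fun _ => ℝ) e).symm ⁻¹' S := by
      rw [← hpre, ← Set.preimage_comp]; simp
    rw [this]
    exact (MeasurableEquiv.piCongrLeft (fun _ => ℝ) e).symm.measurable hSm
  rw [h1]
  -- Fubini
  have hq := volume_measurePreserving_sumPiEquivProdPi (fun _ : Fin n ⊕ (Fin k ⊕ Fin k) => ℝ)
  have h2 : volume S = volume ((MeasurableEquiv.sumPiEquivProdPi
      (fun _ : Fin n ⊕ (Fin k ⊕ Fin k) => ℝ)).symm ⁻¹' S) := by
    have hq' := hq.symm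
    exact (hq'.measure_preimage hSm.nullMeasurableSet).symm
  rw [h2, Measure.volume_eq_prod, Measure.prod_apply
    ((MeasurableEquiv.sumPiEquivProdPi _).symm.measurable hSm)]
  have h3 : ∀ z : Fin n → ℝ, volume (Prod.mk z ⁻¹' ((MeasurableEquiv.sumPiEquivProdPi
      (fun _ : Fin n ⊕ (Fin k ⊕ Fin k) => ℝ)).symm ⁻¹' S)) =
      ENNReal.ofReal (Real.pi ^ k * (1 / (OneIneq.mat c z).det)) := by
    intro z
    rw [← ball _ (hd z)]
    congr 1
    ext v
    change (∑ i, ((aeval ((MeasurableEquiv.sumPiEquivProdPi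
      (fun _ : Fin n ⊕ (Fin k ⊕ Fin k) => ℝ)).symm (z, v)) (qu57 c i) : ℝ)) ^ 2 < 1) ↔ _
    rw [qu57_val]
    exact Iff.rfl
  rw [lintegral_congr h3]
  rw [← ofReal_integral_eq_lintegral_ofReal (hi.const_mul _)
    (Filter.Eventually.of_forall fun z => by have := hd z; positivity), integral_const_mul]

end Pool.Agent.R59
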