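import Pool.Agent.W_2cf66e_h59.LR11
import Pool.Agent.W_2cf66e_h59.LR12
import Pool.Agent.W_2cf66e_h59.LR14

/-!
# MP_2cf66e_nt, reciprocals: the statements (helper59)
-/

set_option autoImplicit false

noncomputable section

open MeasureTheory MvPolynomial

namespace Pool.Agent.R59

theorem period_neg59 {x : ℝ} (h : CVol.IsPeriod x) : CVol.IsPeriod (-x) := by
  obtain ⟨n, P, Q, k, m, p, hi, hv⟩ := h
  refine ⟨n, -P, Q, k, m, p, ?_, ?_⟩
  · simp only [map_neg, neg_div]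
    exact hi.neg
  · simp only [map_neg, neg_div]
    rw [integral_neg, hv]

/-- every period, any sign: integer polynomials `|P| < Q` everywhere, `P > 0` if `x > 0` -/
theorem per_abs (x : ℝ) (h : CVol.IsPeriod x) :
    ∃ (n : ℕ) (P Q : MvPolynomial (Fin (n + 1)) ℤ),
      (∀ z : Fin (n + 1) → ℝ, |(aeval z P : ℝ)| < aeval z Q ∧ (0 < x → 0 < (aeval z P : ℝ))) ∧
      Integrable (fun z : Fin (n + 1) → ℝ => (aeval z P : ℝ) / aeval z Q) ∧
      ∫ z : Fin (n + 1) → ℝ, (aeval z P : ℝ) / aeval z Q = Real.pi * x := by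
  rcases lt_trichotomy x 0 with hx | hx | hx
  · obtain ⟨n, A, B, hAB, hi, hv⟩ := per_pos (neg_pos.2 hx) (period_neg59 h)
    refine ⟨n, -A, B, fun z => ⟨?_, fun h => absurd h hx.not_gt⟩, ?_, ?_⟩
    · obtain ⟨h1, h2⟩ := hAB z
      rw [map_neg, abs_neg, abs_of_pos (by linarith)]
      linarith
    · simp only [map_neg, neg_div]
      exact hi.neg
    · simp only [map_neg, neg_div]
      rw [integral_neg, hv]
      ring
  · subst hx
    refine ⟨0, 0, 1, fun z => ⟨?_, fun h => absurd h (lt_irrefl _)⟩, ?_, ?_⟩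
    · rw [map_zero, map_one, abs_zero]
      exact zero_lt_one
    · simp
    · simp
  · obtain ⟨n, A, B, hAB, hi, hv⟩ := per_pos hx h
    refine ⟨n, A, B, fun z => ⟨?_, fun _ => ?_⟩, hi, hv⟩
    · obtain ⟨h1, h2⟩ := hAB z
      rw [abs_of_pos (by linarith)]
      linarith
    · linarith [(hAB z).1]

/-- the period form of `A / B` -/
theorem abs_per {x : ℝ} {n : ℕ} (P Q : MvPolynomial (Fin (n + 1)) ℤ)
    (hi : Integrable (fun z : Fin (n + 1) → ℝ => (aeval z P : ℝ) / aeval z Q))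
    (hv : ∫ z : Fin (n + 1) → ℝ, (aeval z P : ℝ) / aeval z Q = Real.pi * x) :
    CVol.IsPeriod x := by
  have h := pos_per P Q hi
  rwa [hv, ← mul_assoc, inv_mul_cancel₀ Real.pi_pos.ne', one_mul] at h

theorem mat_poly59 {n N : ℕ} (c : Fin N → Fin N → Fin (n + 2)) :
    ∃ f : MvPolynomial (Fin n) ℤ, ∀ u : Fin n → ℝ, (OneIneq.mat c u).det = (aeval u f : ℝ) := by
  refine ⟨(Matrix.of fun i j => (Fin.cons 0 (Fin.cons 1 X) :
    Fin (n + 2) → MvPolynomial (Fin n) ℤ) (c i j)).det, fun u => ?_⟩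
  rw [AlgHom.map_det]
  congr 1
  ext i j
  simp only [OneIneq.mat, Matrix.of_apply, AlgHom.mapMatrix_apply, Matrix.map_apply]
  generalize c i j = k
  refine Fin.cases ?_ (fun k => ?_) k
  · simp
  · refine Fin.cases ?_ (fun k => ?_) k
    · simp
    · simp

/-- The localised ring: reciprocals of one integer polynomial, of one determinant, and one quartic
inequality. -/
theorem quartic (x : ℝ) (hx : 0 < x) : List.TFAE [
    ∃ k : ℕ, CVol.IsPeriod (Real.pi ^ k * x),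
    ∃ (k n : ℕ) (Q : MvPolynomial (Fin n) ℤ), (∀ z : Fin n → ℝ, 0 < (aeval z Q : ℝ)) ∧
      Integrable (fun z : Fin n → ℝ => 1 / (aeval z Q : ℝ)) ∧
      ∫ z : Fin n → ℝ, 1 / (aeval z Q : ℝ) = Real.pi ^ k * x,
    ∃ (k n N : ℕ) (c : Fin N → Fin N → Fin (n + 2)),
      (∀ z : Fin n → ℝ, 0 < (OneIneq.mat c z).det) ∧
      Integrable (fun z : Fin n → ℝ => 1 / (OneIneq.mat c z).det) ∧
      ∫ z : Fin n → ℝ, 1 / (OneIneq.mat c z).det = Real.pi ^ k * x,
    ∃ (k n m : ℕ) (q : Fin m → MvPolynomial (Fin n) ℚ), (∀ i, (q i).totalDegree ≤ 2) ∧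
      volume {w : Fin n → ℝ | ∑ i, ((aeval w (q i) : ℝ)) ^ 2 < 1} =
        ENNReal.ofReal (Real.pi ^ k * x)] := by
  tfae_have 1 → 3 := by
    rintro ⟨k, h⟩
    obtain ⟨n, N, c, h1, h2, h3⟩ := per_det (by positivity) h
    exact ⟨2 + k, n, N, c, h1, h2, by rw [h3, ← mul_assoc, ← pow_add]⟩
  tfae_have 3 → 4 := by
    rintro ⟨k, n, N, c, h1, h2, h3⟩
    obtain ⟨M, m, q, h4, h5⟩ := vol_quad c h1 h2
    exact ⟨N + k, M, m, q, h4, by rw [h5, h3, ← mul_assoc, ← pow_add]⟩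
  tfae_have 4 → 1 := by
    rintro ⟨k, n, m, q, h1, h2⟩
    exact ⟨k, vol_per q (by positivity) h2⟩
  tfae_have 3 → 2 := by
    rintro ⟨k, n, N, c, h1, h2, h3⟩
    obtain ⟨f, hf⟩ := mat_poly59 c
    exact ⟨k, n, f, by simpa only [hf] using h1, by simpa only [hf] using h2,
      by simpa only [hf] using h3⟩
  tfae_have 2 → 1 := by
    rintro ⟨k, n, Q, h1, h2, h3⟩
    exact ⟨k, by rw [← h3]; exact rec_per Q h2⟩
  tfae_finish

end Pool.Agent.R59
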