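import Pool.Agent.W_2cf66e_h68.Defs68
import Pool.Agent.W_2cf66e_h46.QAa

/-!
# Convex quadratic volumes, part A: convex quadratic sets (helper59, after helper46)
-/

set_option autoImplicit false

noncomputable section

open MeasureTheory MvPolynomial

namespace Pool.Agent.CQ68

open Pool.Agent.QVol (cont_aeval rbox)

/-- Affine polynomials are of the required form. -/
theorem IsCQ.of_aff {ι : Type} {q : MvPolynomial ι ℚ} (h : q.totalDegree ≤ 1) : IsCQ q := Or.inl h

/-- Injective renaming. (`totalDegree_rename_le`.) -/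
theorem IsCQ.ren {ι κ : Type} {q : MvPolynomial ι ℚ} (h : IsCQ q) {f : ι → κ}
    (hf : Function.Injective f) : IsCQ (rename f q) := by
  rcases h with h | ⟨l, i, j, h1, h2, h3⟩
  · exact Or.inl ((totalDegree_rename_le f q).trans h)
  · refine Or.inr ⟨rename f l, f i, f j, (totalDegree_rename_le f l).trans h1,
      fun h => h2 (hf h), ?_⟩
    rcases h3 with h3 | h3
    · left
      rw [h3, map_sub, map_pow, map_add, rename_X, rename_X]
    · right
      rw [h3, map_sub, map_pow, map_sub, rename_X, rename_X]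

theorem CS.univ {ι : Type} : CS (Set.univ : Set (ι → ℝ)) := by
  refine ⟨0, Fin.elim0, fun i => i.elim0, ?_⟩
  ext z
  simp only [Set.mem_univ, Set.mem_ofPred_eq, true_iff]
  exact fun i => i.elim0

theorem CS.of_cq {ι : Type} {q : MvPolynomial ι ℚ} (h : IsCQ q) :
    CS {z : ι → ℝ | 0 ≤ (aeval z q : ℝ)} := by
  refine ⟨1, fun _ => q, fun _ => h, ?_⟩
  ext z
  simp only [Set.mem_ofPred_eq]
  exact ⟨fun h _ => h, fun h => h 0⟩

theorem CS.inter {ι : Type} {S T : Set (ι → ℝ)} (hS : CS S) (hT : CS T) : CS (S ∩ T) := by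
  obtain ⟨m, q, hq, rfl⟩ := hS
  obtain ⟨m', q', hq', rfl⟩ := hT
  refine ⟨m + m', Fin.append q q', fun i => ?_, ?_⟩
  · refine Fin.addCases (fun i => ?_) (fun i => ?_) i
    · rw [Fin.append_left]
      exact hq i
    · rw [Fin.append_right]
      exact hq' i
  · ext z
    simp only [Set.mem_inter_iff, Set.mem_ofPred_eq]
    constructor
    · rintro ⟨h1, h2⟩ i
      refine Fin.addCases (fun i => ?_) (fun i => ?_) i
      · rw [Fin.append_left]
        exact h1 i
      · rw [Fin.append_right]
        exact h2 i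
    · intro h
      constructor
      · intro i
        have h1 := h (Fin.castAdd m' i)
        rwa [Fin.append_left] at h1
      · intro i
        have h1 := h (Fin.natAdd m i)
        rwa [Fin.append_right] at h1

theorem CS.iInter {ι α : Type} [Fintype α] (S : α → Set (ι → ℝ)) (h : ∀ a, CS (S a)) :
    CS (⋂ a, S a) := by
  classical
  have key : ∀ s : Finset α, CS (⋂ a ∈ s, S a) := by
    intro s
    induction s using Finset.induction_on with
    | empty =>
      have h1 : (⋂ a ∈ (∅ : Finset α), S a) = Set.univ := by simp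
      rw [h1]
      exact CS.univ
    | insert a s _ ih =>
      rw [Finset.set_biInter_insert]
      exact (h a).inter ih
  have h1 := key Finset.univ
  simpa using h1

/-- Renaming of coordinates (in particular cylinders). -/
theorem CS.ren {ι κ : Type} {S : Set (ι → ℝ)} (h : CS S) {f : ι → κ}
    (hf : Function.Injective f) : CS {z : κ → ℝ | (fun i => z (f i)) ∈ S} := by
  obtain ⟨m, q, hq, rfl⟩ := h
  refine ⟨m, fun i => rename f (q i), fun i => (hq i).ren hf, ?_⟩
  ext z
  simp only [Set.mem_ofPred_eq, aeval_rename]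
  exact Iff.rfl

theorem CS.closed {ι : Type} {S : Set (ι → ℝ)} (h : CS S) : IsClosed S := by
  obtain ⟨m, q, hq, rfl⟩ := h
  have h1 : {z : ι → ℝ | ∀ i, 0 ≤ (aeval z (q i) : ℝ)} =
      ⋂ i, {z : ι → ℝ | 0 ≤ (aeval z (q i) : ℝ)} := by
    ext z
    simp
  rw [h1]
  exact isClosed_iInter fun i => isClosed_le continuous_const (cont_aeval (q i))

theorem CS.meas {ι : Type} [Fintype ι] {S : Set (ι → ℝ)} (h : CS S) : MeasurableSet S :=
  h.closed.measurableSet

theorem CS.isSA {ι : Type} {S : Set (ι → ℝ)} (h : CS S) : Pool.Agent.CVol.IsSA S := by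
  obtain ⟨m, q, hq, rfl⟩ := h
  clear hq
  induction m with
  | zero =>
    have h1 : {z : ι → ℝ | ∀ i : Fin 0, 0 ≤ (aeval z (q i) : ℝ)} =
        {z : ι → ℝ | 0 < (aeval z (1 : MvPolynomial ι ℚ) : ℝ)} := by
      ext z
      simp
    rw [h1]
    exact Pool.Agent.CVol.IsSA.pos 1
  | succ m ih =>
    have h1 : {z : ι → ℝ | ∀ i : Fin (m + 1), 0 ≤ (aeval z (q i) : ℝ)} =
        {z : ι → ℝ | 0 < (aeval z (-(q 0)) : ℝ)}ᶜ ∩
          {z : ι → ℝ | ∀ i : Fin m, 0 ≤ (aeval z (q i.succ) : ℝ)} := by
      ext z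
      simp only [Set.mem_inter_iff, Set.mem_compl_iff, Set.mem_ofPred_eq, Fin.forall_fin_succ,
        map_neg, not_lt, neg_nonpos]
    rw [h1]
    exact (Pool.Agent.CVol.IsSA.pos _).compl.inter (ih fun i => q i.succ)

theorem CS.rbox {ι : Type} [Fintype ι] (l u : ι → ℚ) : CS (rbox l u) := by
  have h1 : Pool.Agent.QVol.rbox l u = ⋂ i : ι,
      {z : ι → ℝ | 0 ≤ (aeval z (X i - C (l i) : MvPolynomial ι ℚ) : ℝ)} ∩
        {z : ι → ℝ | 0 ≤ (aeval z (C (u i) - X i : MvPolynomial ι ℚ) : ℝ)} := by
    ext z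
    simp only [Pool.Agent.QVol.rbox, Set.mem_Icc, Pi.le_def, Set.mem_iInter, Set.mem_inter_iff,
      Set.mem_ofPred_eq, map_sub, aeval_X, aeval_C, sub_nonneg, forall_and]
    exact Iff.rfl
  rw [h1]
  refine CS.iInter _ fun i => CS.inter (CS.of_cq (IsCQ.of_aff ?_)) (CS.of_cq (IsCQ.of_aff ?_))
  · refine (totalDegree_sub _ _).trans (max_le ?_ ?_)
    · rw [totalDegree_X]
    · rw [totalDegree_C]
      exact Nat.zero_le 1
  · refine (totalDegree_sub _ _).trans (max_le ?_ ?_)
    · rw [totalDegree_C]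
      exact Nat.zero_le 1
    · rw [totalDegree_X]

/-- A monomial of degree at most one is affine. -/
theorem CA_mon {ι : Type} (d : ι →₀ ℕ) (h : d.degree ≤ 1) (x y : ι → ℝ) (a b : ℝ)
    (hab : a + b = 1) : (∏ i ∈ d.support, (a • x + b • y) i ^ d i) =
      a * (∏ i ∈ d.support, x i ^ d i) + b * ∏ i ∈ d.support, y i ^ d i := by
  rcases Nat.le_one_iff_eq_zero_or_eq_one.1 h with h0 | h1
  · have h2 : d = 0 := Finsupp.degree_eq_zero_iff d |>.1 h0
    subst h2
    simp [hab]
  · have h2 : d ∈ Set.range (fun i : ι => Finsupp.single i 1) := by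
      rw [Finsupp.range_single_one]
      exact h1
    obtain ⟨i, rfl⟩ := h2
    simp only [Finsupp.support_single i one_ne_zero, Finset.prod_singleton,
      Finsupp.single_eq_same, pow_one, Pi.add_apply, Pi.smul_apply, smul_eq_mul]

/-- An affine polynomial is an affine function. -/
theorem CA_aff {ι : Type} {q : MvPolynomial ι ℚ} (h : q.totalDegree ≤ 1) (x y : ι → ℝ) (a b : ℝ)
    (hab : a + b = 1) :
    (aeval (a • x + b • y) q : ℝ) = a * aeval x q + b * aeval y q := by
  rw [aeval_def, aeval_def, aeval_def, eval₂_eq, eval₂_eq, eval₂_eq, Finset.mul_sum,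
    Finset.mul_sum, ← Finset.sum_add_distrib]
  refine Finset.sum_congr rfl fun d hd => ?_
  have h1 : d.degree ≤ 1 := (le_totalDegree hd).trans h
  rw [CA_mon d h1 x y a b hab]
  ring

/-- A polynomial of the required form is concave. -/
theorem IsCQ.conc {ι : Type} {q : MvPolynomial ι ℚ} (h : IsCQ q) (x y : ι → ℝ) (a b : ℝ)
    (ha : 0 ≤ a) (hb : 0 ≤ b) (hab : a + b = 1) :
    a * aeval x q + b * aeval y q ≤ (aeval (a • x + b • y) q : ℝ) := by
  rcases h with h | ⟨l, i, j, h1, _, h3⟩
  · exact (CA_aff h x y a b hab).ge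
  · have key : ∀ u v : ℝ, (a * u + b * v) ^ 2 ≤ a * u ^ 2 + b * v ^ 2 := by
      intro u v
      have h4 : b = 1 - a := by linarith
      have h5 : 0 ≤ a * b * (u - v) ^ 2 := by positivity
      rw [h4] at h5 ⊢
      nlinarith
    rcases h3 with h3 | h3
    · rw [h3]
      simp only [map_sub, map_pow, map_add, aeval_X]
      rw [CA_aff h1 x y a b hab]
      simp only [Pi.add_apply, Pi.smul_apply, smul_eq_mul]
      have h6 := key (x i + x j) (y i + y j)
      have h7 : a * x i + b * y i + (a * x j + b * y j) =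
        a * (x i + x j) + b * (y i + y j) := by ring
      rw [h7]
      linarith
    · rw [h3]
      simp only [map_sub, map_pow, aeval_X]
      rw [CA_aff h1 x y a b hab]
      simp only [Pi.add_apply, Pi.smul_apply, smul_eq_mul]
      have h6 := key (x i - x j) (y i - y j)
      have h7 : a * x i + b * y i - (a * x j + b * y j) =
        a * (x i - x j) + b * (y i - y j) := by ring
      rw [h7]
      linarith

/-- The sets of the required form are convex. -/
theorem CS.convex {ι : Type} {S : Set (ι → ℝ)} (h : CS S) : Convex ℝ S := by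
  obtain ⟨m, q, hq, rfl⟩ := h
  intro x hx y hy a b ha hb hab i
  have h1 : (0 : ℝ) ≤ aeval x (q i) := hx i
  have h2 : (0 : ℝ) ≤ aeval y (q i) := hy i
  have h3 := (hq i).conc x y a b ha hb hab
  have h4 : 0 ≤ a * (aeval x (q i) : ℝ) + b * aeval y (q i) := by positivity
  exact h4.trans h3

end Pool.Agent.CQ68
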