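import Pool.Agent.W_2cf66e_h59.CA59
import Pool.Agent.W_2cf66e_h46.QB

/-!
# Convex quadratic volumes, part F: calculus of blocks (helper59, after helper46)
-/

set_option autoImplicit false

noncomputable section

open MeasureTheory MvPolynomial

namespace Pool.Agent.CQ68

open Pool.Agent.QVol (cont_aeval fib int_fib vol_fib)

/-- Empty sum: index type `Empty` (or `Fin 0`), `Z = univ`, one affine function `0`, `v = 1`. -/
theorem CBlock.zero : CBlock 0 0 := by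
  refine ⟨Empty, inferInstance, Set.univ, Unit, inferInstance, inferInstance, fun _ => 0, 1,
    CS.univ, ?_, fun _ => ?_, one_pos, ?_, ?_, fun z _ _ => ?_⟩
  · exact (Set.subsingleton_univ).isCompact
  · rw [totalDegree_zero]
    exact Nat.zero_le 1
  · rw [volume_pi, Measure.pi_empty_univ]
    simp
  · simp
  · simp

/-- Larger bound. -/
theorem CBlock.mono {x β β' : ℝ} (h : CBlock x β) (hb : β ≤ β') : CBlock x β' := by
  obtain ⟨κ, i1, Z, α, i2, i3, θ, v, h1, h2, h3, h4, h5, h6, h7⟩ := h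
  exact ⟨κ, i1, Z, α, i2, i3, θ, v, h1, h2, h3, h4, h5, h6, fun z hz a => (h7 z hz a).trans hb⟩

theorem QF_sup {α β : Type} [Finite α] [Finite β] [Nonempty α] [Nonempty β] (f : α → ℝ)
    (g : β → ℝ) : (⨆ a : α × β, (f a.1 + g a.2)) = (⨆ a, f a) + ⨆ b, g b := by
  apply le_antisymm
  · refine ciSup_le fun a => ?_
    exact add_le_add (le_ciSup (Set.finite_range f).bddAbove a.1)
      (le_ciSup (Set.finite_range g).bddAbove a.2)
  · obtain ⟨a, ha⟩ := exists_eq_ciSup_of_finite (f := f)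
    obtain ⟨b, hb⟩ := exists_eq_ciSup_of_finite (f := g)
    rw [← ha, ← hb]
    exact le_ciSup (f := fun a : α × β => f a.1 + g a.2)
      (Set.finite_range _).bddAbove (a, b)

theorem QF_cont {ι α : Type} [Fintype α] [Nonempty α] (θ : α → MvPolynomial ι ℚ) :
    Continuous fun z : ι → ℝ => ⨆ a, (aeval z (θ a) : ℝ) := by
  have h : (fun z : ι → ℝ => ⨆ a, (aeval z (θ a) : ℝ)) =
      fun z : ι → ℝ => Finset.univ.sup' Finset.univ_nonempty (fun a => (aeval z (θ a) : ℝ)) := by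
    funext z
    rw [Finset.sup'_univ_eq_ciSup]
  rw [h]
  exact Continuous.finset_sup'_apply Finset.univ_nonempty fun a _ => cont_aeval (θ a)

theorem QF_fib_mem {κ₁ κ₂ : Type} (Z₁ : Set (κ₁ → ℝ)) (Z₂ : Set (κ₂ → ℝ)) (y : κ₁ → ℝ)
    (hy : y ∈ Z₁) : fib ({z : κ₁ ⊕ κ₂ → ℝ | (fun i => z (Sum.inl i)) ∈ Z₁} ∩
      {z : κ₁ ⊕ κ₂ → ℝ | (fun i => z (Sum.inr i)) ∈ Z₂}) y = Z₂ := by
  ext b
  constructor
  · intro h
    exact h.2
  · intro h
    exact ⟨hy, h⟩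

theorem QF_fib_notMem {κ₁ κ₂ : Type} (Z₁ : Set (κ₁ → ℝ)) (Z₂ : Set (κ₂ → ℝ)) (y : κ₁ → ℝ)
    (hy : y ∉ Z₁) : fib ({z : κ₁ ⊕ κ₂ → ℝ | (fun i => z (Sum.inl i)) ∈ Z₁} ∩
      {z : κ₁ ⊕ κ₂ → ℝ | (fun i => z (Sum.inr i)) ∈ Z₂}) y = ∅ := by
  ext b
  constructor
  · intro h
    exact absurd h.1 hy
  · intro h
    exact absurd h (Set.notMem_empty b)

/-- Sum of two blocks: `Z₁ × Z₂` (index type `κ₁ ⊕ κ₂`), functions `θ₁ a + θ₂ a'`
(index type `α₁ × α₂`), `v = v₁ v₂`. The maximum over pairs of a sum is the sum of the maxima;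
Fubini. -/
theorem CBlock.add {x y β γ : ℝ} (hx : CBlock x β) (hy : CBlock y γ) : CBlock (x + y) (β + γ) := by
  obtain ⟨κ₁, i1, Z₁, α₁, i2, i3, θ₁, v₁, a1, a2, a3, a4, a5, a6, a7⟩ := hx
  obtain ⟨κ₂, j1, Z₂, α₂, j2, j3, θ₂, v₂, b1, b2, b3, b4, b5, b6, b7⟩ := hy
  have hv1 : (0 : ℝ) < v₁ := by exact_mod_cast a4
  have hv2 : (0 : ℝ) < v₂ := by exact_mod_cast b4
  have hQ : CS ({z : κ₁ ⊕ κ₂ → ℝ | (fun i => z (Sum.inl i)) ∈ Z₁} ∩
      {z : κ₁ ⊕ κ₂ → ℝ | (fun i => z (Sum.inr i)) ∈ Z₂}) :=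
    (a1.ren Sum.inl_injective).inter (b1.ren Sum.inr_injective)
  have hC : IsCompact ({z : κ₁ ⊕ κ₂ → ℝ | (fun i => z (Sum.inl i)) ∈ Z₁} ∩
      {z : κ₁ ⊕ κ₂ → ℝ | (fun i => z (Sum.inr i)) ∈ Z₂}) := by
    have h1 : Continuous fun q : (κ₁ → ℝ) × (κ₂ → ℝ) => (Sum.elim q.1 q.2 : κ₁ ⊕ κ₂ → ℝ) := by
      refine continuous_pi fun i => ?_
      cases i with
      | inl i => exact (continuous_apply i).comp continuous_fst
      | inr i => exact (continuous_apply i).comp continuous_snd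
    have h2 := (a2.prod b2).image h1
    have h3 : (fun q : (κ₁ → ℝ) × (κ₂ → ℝ) => (Sum.elim q.1 q.2 : κ₁ ⊕ κ₂ → ℝ)) '' (Z₁ ×ˢ Z₂) =
        {z : κ₁ ⊕ κ₂ → ℝ | (fun i => z (Sum.inl i)) ∈ Z₁} ∩
          {z : κ₁ ⊕ κ₂ → ℝ | (fun i => z (Sum.inr i)) ∈ Z₂} := by
      ext z
      constructor
      · rintro ⟨q, hq, rfl⟩
        exact ⟨hq.1, hq.2⟩
      · intro hz
        refine ⟨(fun i => z (Sum.inl i), fun i => z (Sum.inr i)), ⟨hz.1, hz.2⟩, ?_⟩
        funext i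
        cases i with
        | inl i => rfl
        | inr i => rfl
    rw [h3] at h2
    exact h2
  obtain ⟨Z, hZ⟩ : ∃ Z, Z = {z : κ₁ ⊕ κ₂ → ℝ | (fun i => z (Sum.inl i)) ∈ Z₁} ∩
      {z : κ₁ ⊕ κ₂ → ℝ | (fun i => z (Sum.inr i)) ∈ Z₂} := ⟨_, rfl⟩
  have hf1 : ∀ y ∈ Z₁, fib Z y = Z₂ := by
    intro y hy
    rw [hZ]
    exact QF_fib_mem Z₁ Z₂ y hy
  have hf2 : ∀ y, y ∉ Z₁ → fib Z y = ∅ := by
    intro y hy
    rw [hZ]
    exact QF_fib_notMem Z₁ Z₂ y hy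
  rw [← hZ] at hQ hC
  have hval : ∀ (y : κ₁ → ℝ) (b : κ₂ → ℝ),
      (⨆ a : α₁ × α₂, (aeval (Sum.elim y b : κ₁ ⊕ κ₂ → ℝ)
        (rename Sum.inl (θ₁ a.1) + rename Sum.inr (θ₂ a.2) : MvPolynomial (κ₁ ⊕ κ₂) ℚ) : ℝ)) =
      (⨆ a, (aeval y (θ₁ a) : ℝ)) + ⨆ a, (aeval b (θ₂ a) : ℝ) := by
    intro y b
    rw [← QF_sup]
    congr 1
    funext a
    rw [map_add, aeval_rename, aeval_rename, Sum.elim_comp_inl, Sum.elim_comp_inr]
  have hvol1 : volume.real Z₁ = v₁ := by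
    rw [Measure.real, a5, ENNReal.toReal_ofReal hv1.le]
  have hvol2 : volume.real Z₂ = v₂ := by
    rw [Measure.real, b5, ENNReal.toReal_ofReal hv2.le]
  refine ⟨κ₁ ⊕ κ₂, inferInstance, Z, α₁ × α₂, inferInstance, inferInstance,
    fun a => rename Sum.inl (θ₁ a.1) + rename Sum.inr (θ₂ a.2), v₁ * v₂, hQ, hC, fun a => ?_,
    mul_pos a4 b4, ?_, ?_, fun z hz a => ?_⟩
  · refine (totalDegree_add _ _).trans (max_le ?_ ?_)
    · exact (totalDegree_rename_le _ _).trans (a3 a.1)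
    · exact (totalDegree_rename_le _ _).trans (b3 a.2)
  · rw [vol_fib hQ.meas]
    have h1 : (fun y : κ₁ → ℝ => volume (fib Z y)) =
        Z₁.indicator fun _ => volume Z₂ := by
      funext y
      by_cases hy : y ∈ Z₁
      · rw [hf1 y hy, Set.indicator_of_mem hy]
      · rw [hf2 y hy, Set.indicator_of_notMem hy, measure_empty]
    rw [h1, lintegral_indicator a1.meas, setLIntegral_const, a5, b5, mul_comm,
      ← ENNReal.ofReal_mul hv1.le]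
    push_cast
    rfl
  · have hint : IntegrableOn (fun z : κ₁ ⊕ κ₂ → ℝ => ⨆ a : α₁ × α₂, (aeval z
        (rename Sum.inl (θ₁ a.1) + rename Sum.inr (θ₂ a.2) : MvPolynomial (κ₁ ⊕ κ₂) ℚ) : ℝ))
        Z :=
      (QF_cont fun a : α₁ × α₂ => (rename Sum.inl (θ₁ a.1) + rename Sum.inr (θ₂ a.2) :
        MvPolynomial (κ₁ ⊕ κ₂) ℚ)).continuousOn.integrableOn_compact hC
    rw [int_fib hQ.meas _ hint]
    have hi2 : IntegrableOn (fun b : κ₂ → ℝ => ⨆ a, (aeval b (θ₂ a) : ℝ)) Z₂ :=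
      (QF_cont θ₂).continuousOn.integrableOn_compact b2
    have hi1 : IntegrableOn (fun b : κ₁ → ℝ => ⨆ a, (aeval b (θ₁ a) : ℝ)) Z₁ :=
      (QF_cont θ₁).continuousOn.integrableOn_compact a2
    have h1 : (fun y0 : κ₁ → ℝ => ∫ b in fib Z y0, ⨆ a : α₁ × α₂,
        (aeval (Sum.elim y0 b : κ₁ ⊕ κ₂ → ℝ) (rename Sum.inl (θ₁ a.1) +
          rename Sum.inr (θ₂ a.2) : MvPolynomial (κ₁ ⊕ κ₂) ℚ) : ℝ)) =
        Z₁.indicator fun y0 => (v₂ : ℝ) * (⨆ a, (aeval y0 (θ₁ a) : ℝ)) + v₂ * y := by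
      funext y0
      by_cases hy : y0 ∈ Z₁
      · rw [hf1 y0 hy, Set.indicator_of_mem hy]
        simp only [hval]
        have hc2 : IntegrableOn (fun _ : κ₂ → ℝ => (⨆ a, (aeval y0 (θ₁ a) : ℝ))) Z₂ :=
          continuous_const.continuousOn.integrableOn_compact b2
        rw [integral_add hc2 hi2, b6, setIntegral_const, hvol2, smul_eq_mul]
      · rw [hf2 y0 hy, Set.indicator_of_notMem hy]
        simp
    have hc1 : IntegrableOn (fun _ : κ₁ → ℝ => (v₂ : ℝ) * y) Z₁ :=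
      continuous_const.continuousOn.integrableOn_compact a2
    have hi1' : IntegrableOn (fun b : κ₁ → ℝ => (v₂ : ℝ) * ⨆ a, (aeval b (θ₁ a) : ℝ)) Z₁ :=
      hi1.const_mul _
    rw [h1, integral_indicator a1.meas, integral_add hi1' hc1,
      integral_const_mul, a6, setIntegral_const, hvol1, smul_eq_mul]
    push_cast
    ring
  · rw [hZ] at hz
    have h1 : (aeval z (rename Sum.inl (θ₁ a.1) + rename Sum.inr (θ₂ a.2) :
        MvPolynomial (κ₁ ⊕ κ₂) ℚ) : ℝ) =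
        aeval (fun i => z (Sum.inl i)) (θ₁ a.1) + aeval (fun i => z (Sum.inr i)) (θ₂ a.2) := by
      rw [map_add, aeval_rename, aeval_rename]
      rfl
    show (aeval z (rename Sum.inl (θ₁ a.1) + rename Sum.inr (θ₂ a.2) :
        MvPolynomial (κ₁ ⊕ κ₂) ℚ) : ℝ) ≤ β + γ
    rw [h1]
    exact add_le_add (a7 _ hz.1 a.1) (b7 _ hz.2 a.2)

theorem CBlock.sum {α : Type} (T : Finset α) (x β : α → ℝ) (h : ∀ a ∈ T, CBlock (x a) (β a)) :
    CBlock (∑ a ∈ T, x a) (∑ a ∈ T, β a) := by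
  classical
  induction T using Finset.induction_on with
  | empty =>
    rw [Finset.sum_empty, Finset.sum_empty]
    exact CBlock.zero
  | insert a s ha ih =>
    rw [Finset.sum_insert ha, Finset.sum_insert ha]
    exact (h a (Finset.mem_insert_self a s)).add
      (ih fun b hb => h b (Finset.mem_insert_of_mem hb))

end Pool.Agent.CQ68
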