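import Pool.Agent.W_2cf66e_h59.CA59
import Pool.Agent.W_2cf66e_h46.QB

/-!
# Convex quadratic volumes, part F: from a block to a volume (helper59, after helper46)
-/

set_option autoImplicit false

noncomputable section

open MeasureTheory MvPolynomial

namespace Pool.Agent.CQ68

open Pool.Agent.QVol (cont_aeval fib vol_fib)

/-- Index type `κ ⊕ Unit`; the set `{(z,u) : z ∈ Z, 0 ≤ u, v u ≤ c - θ_a(z) for all a}`.
It is compact (closed; `u ≤ (c - θ_a(z))/v` is bounded on the compact `Z`), its fibre over `z ∈ Z`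
is the interval `[0, (c - max_a θ_a(z))/v]`, and `c - max ≥ c - β ≥ 0`. So its volume is
`(c v - v y)/v = c - y`. -/
theorem cblock_final {y β : ℝ} (h : CBlock y β) (c : ℚ) (hc : β ≤ c) :
    ∃ (κ : Type) (_ : Fintype κ) (S : Set (κ → ℝ)), CS S ∧ IsCompact S ∧
      volume S = ENNReal.ofReal (c - y) := by
  obtain ⟨κ, _, Z, α, _, _, θ, v, hZ, hZc, hθ, hv, hvol, hint, hβ⟩ := h
  have hv0 : (0 : ℝ) < v := by exact_mod_cast hv
  have hvq : (v : ℝ) ≠ 0 := hv0.ne'
  set S : Set (κ ⊕ Unit → ℝ) := {z | (fun i => z (Sum.inl i)) ∈ Z} ∩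
    ({z | 0 ≤ (aeval z (X (Sum.inr ()) : MvPolynomial (κ ⊕ Unit) ℚ) : ℝ)} ∩
      ⋂ a, {z | 0 ≤ (aeval z (C c - rename Sum.inl (θ a) - C v * X (Sum.inr ()) :
        MvPolynomial (κ ⊕ Unit) ℚ) : ℝ)}) with hS
  have hmem : ∀ z : κ ⊕ Unit → ℝ, z ∈ S ↔ (fun i => z (Sum.inl i)) ∈ Z ∧ 0 ≤ z (Sum.inr ()) ∧
      ∀ a, (v : ℝ) * z (Sum.inr ()) ≤ c - aeval (fun i => z (Sum.inl i)) (θ a) := by
    intro z
    rw [hS]
    simp only [Set.mem_inter_iff, Set.mem_ofPred_eq, Set.mem_iInter, aeval_X, map_sub, map_mul,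
      aeval_C, aeval_rename]
    constructor
    · rintro ⟨h1, h2, h3⟩
      refine ⟨h1, h2, fun a => ?_⟩
      have h4 := h3 a
      have h5 : (0 : ℝ) ≤ (c : ℝ) - aeval (fun i => z (Sum.inl i)) (θ a) -
        (v : ℝ) * z (Sum.inr ()) := h4
      linarith
    · rintro ⟨h1, h2, h3⟩
      refine ⟨h1, h2, fun a => ?_⟩
      have h5 : (0 : ℝ) ≤ (c : ℝ) - aeval (fun i => z (Sum.inl i)) (θ a) -
        (v : ℝ) * z (Sum.inr ()) := by
        have := h3 a
        linarith
      exact h5
  have hCS : CS S := by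
    refine (hZ.ren Sum.inl_injective).inter ((CS.of_cq (IsCQ.of_aff ?_)).inter
      (CS.iInter _ fun a => CS.of_cq (IsCQ.of_aff ?_)))
    · rw [totalDegree_X]
    · refine (totalDegree_sub _ _).trans (max_le ((totalDegree_sub _ _).trans (max_le ?_ ?_)) ?_)
      · rw [totalDegree_C]
        exact Nat.zero_le 1
      · exact (totalDegree_rename_le _ _).trans (hθ a)
      · refine (totalDegree_mul _ _).trans ?_
        rw [totalDegree_C, totalDegree_X]
  have hθc : ∀ a, Continuous fun z : κ → ℝ => (aeval z (θ a) : ℝ) := fun a => cont_aeval _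
  have hMc : Continuous fun z : κ → ℝ => (⨆ a, aeval z (θ a) : ℝ) := by
    have h1 : (fun z : κ → ℝ => (⨆ a, aeval z (θ a) : ℝ)) = fun z =>
        Finset.univ.sup' Finset.univ_nonempty fun a => (aeval z (θ a) : ℝ) := by
      funext z
      rw [Finset.sup'_univ_eq_ciSup]
    rw [h1]
    exact Continuous.finset_sup'_apply _ fun a _ => hθc a
  have hle : ∀ (z : κ → ℝ) a, (aeval z (θ a) : ℝ) ≤ ⨆ a, aeval z (θ a) := fun z a =>
    le_ciSup (f := fun a => (aeval z (θ a) : ℝ)) (Set.finite_range _).bddAbove a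
  have hMβ : ∀ z ∈ Z, (⨆ a, aeval z (θ a) : ℝ) ≤ c := fun z hz =>
    (ciSup_le (hβ z hz)).trans hc
  refine ⟨κ ⊕ Unit, inferInstance, S, hCS, ?_, ?_⟩
  · -- compactness
    obtain ⟨A, hA⟩ := hZc.isBounded.subset_closedBall 0
    obtain ⟨B, hB⟩ := hZc.exists_bound_of_continuousOn hMc.continuousOn
    refine IsCompact.of_isClosed_subset (isCompact_Icc (a := fun _ : κ ⊕ Unit => -(max |A| ((c + |B|) / v)))
      (b := fun _ => max |A| ((c + |B|) / v))) hCS.closed ?_
    intro z hz
    obtain ⟨h1, h2, h3⟩ := (hmem z).1 hz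
    have h4 : ∀ i, |z i| ≤ max |A| ((c + |B|) / v) := by
      intro i
      rcases i with i | i
      · refine le_trans ?_ (le_max_left _ _)
        have h5 := hA h1
        rw [mem_closedBall_zero_iff] at h5
        have h6 := norm_le_pi_norm (fun i => z (Sum.inl i)) i
        rw [Real.norm_eq_abs] at h6
        exact (h6.trans h5).trans (le_abs_self A)
      · refine le_trans ?_ (le_max_right _ _)
        rw [abs_of_nonneg h2, le_div_iff₀ hv0]
        have h5 : (v : ℝ) * z (Sum.inr ()) ≤ c - ⨆ a, aeval (fun i => z (Sum.inl i)) (θ a) := by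
          have h6 : (⨆ a, aeval (fun i => z (Sum.inl i)) (θ a) : ℝ) ≤
              c - (v : ℝ) * z (Sum.inr ()) := ciSup_le fun a => by linarith [h3 a]
          linarith
        have h7 := hB _ h1
        rw [Real.norm_eq_abs] at h7
        have h8 := neg_abs_le (⨆ a, aeval (fun i => z (Sum.inl i)) (θ a) : ℝ)
        have h9 := le_abs_self B
        have h10 : z (Sum.inr i) = z (Sum.inr ()) := rfl
        rw [mul_comm]
        linarith
    rw [Set.mem_Icc]
    exact ⟨fun i => (abs_le.1 (h4 i)).1, fun i => (abs_le.1 (h4 i)).2⟩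
  · -- the volume
    have hZm : MeasurableSet Z := hZ.meas
    have hfib : ∀ z : κ → ℝ, volume (fib S z) =
        Z.indicator (fun z => ENNReal.ofReal ((c - ⨆ a, aeval z (θ a)) / v)) z := by
      intro z
      by_cases hz : z ∈ Z
      · rw [Set.indicator_of_mem hz]
        have h1 : fib S z = (MeasurableEquiv.funUnique Unit ℝ) ⁻¹'
            (Set.Icc 0 ((c - ⨆ a, aeval z (θ a)) / v)) := by
          ext b
          show Sum.elim z b ∈ S ↔ b () ∈ Set.Icc 0 ((c - ⨆ a, aeval z (θ a)) / (v : ℝ))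
          rw [hmem]
          simp only [Sum.elim_inl, Sum.elim_inr, Set.mem_Icc]
          rw [le_div_iff₀ hv0]
          constructor
          · rintro ⟨_, h2, h3⟩
            refine ⟨h2, ?_⟩
            have h6 : (⨆ a, aeval z (θ a) : ℝ) ≤ c - (v : ℝ) * b () :=
              ciSup_le fun a => by linarith [h3 a]
            linarith
          · rintro ⟨h2, h3⟩
            refine ⟨hz, h2, fun a => ?_⟩
            have := hle z a
            linarith
        rw [h1, (volume_preserving_funUnique Unit ℝ).measure_preimage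
          measurableSet_Icc.nullMeasurableSet, Real.volume_Icc, sub_zero]
      · rw [Set.indicator_of_notMem hz]
        have h1 : fib S z = ∅ := by
          ext b
          simp only [Set.mem_empty_iff_false, iff_false]
          intro hb
          have h2 : Sum.elim z b ∈ S := hb
          have h3 := ((hmem _).1 h2).1
          simp only [Sum.elim_inl] at h3
          exact hz h3
        rw [h1, measure_empty]
    have hMi : IntegrableOn (fun z : κ → ℝ => (⨆ a, aeval z (θ a) : ℝ)) Z :=
      hMc.continuousOn.integrableOn_compact hZc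
    have hci : IntegrableOn (fun _ : κ → ℝ => (c : ℝ)) Z :=
      continuous_const.continuousOn.integrableOn_compact hZc
    have hI : ∫ z in Z, (c - ⨆ a, aeval z (θ a)) / (v : ℝ) = c - y := by
      rw [integral_div, integral_sub hci hMi, hint, setIntegral_const, smul_eq_mul]
      have h1 : volume.real Z = v := by
        rw [Measure.real, hvol, ENNReal.toReal_ofReal hv0.le]
      rw [h1]
      field_simp
    rw [vol_fib hCS.meas, lintegral_congr hfib, lintegral_indicator hZm,
      ← ofReal_integral_eq_lintegral_ofReal]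
    · rw [hI]
    · exact (hci.sub hMi).div_const _
    · exact (ae_restrict_mem hZm).mono fun z hz => div_nonneg (sub_nonneg.2 (hMβ z hz)) hv0.le

end Pool.Agent.CQ68
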