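import Pool.Agent.W_2cf66e_h3.Stmt
import Pool.Agent.W_2cf66e_h3.FoldK

/-!
# MP_2cf66e_nt, reciprocals: definitions (helper59)
-/

set_option autoImplicit false

noncomputable section

open MeasureTheory MvPolynomial

namespace Pool.Agent.R59

/-- `f = A / B` with rational polynomials, `B ≥ 1` and `A ≥ c`. -/
def PG {n : ℕ} (c f : (Fin n → ℝ) → ℝ) : Prop :=
  ∃ A B : MvPolynomial (Fin n) ℚ, ∀ z : Fin n → ℝ,
    1 ≤ (aeval z B : ℝ) ∧ c z ≤ (aeval z A : ℝ) ∧ f z = (aeval z A : ℝ) / aeval z B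

/-- The kernel: its integral over `w ∈ ℝ` is `π |h|`. -/
def ker (m h w : ℝ) : ℝ := h ^ 2 * m / (m ^ 2 + h ^ 2 * w ^ 2)

/-- The product of the coordinates `1, .., N`. -/
def TT {N : ℕ} (z : Fin (N + 1) → ℝ) : ℝ := ∏ i : Fin N, z i.succ

/-- The weight. -/
def WW {N : ℕ} (z : Fin (N + 1) → ℝ) : ℝ := ∏ i : Fin N, (1 + (z i.succ) ^ 2) ^ 2

/-- The value of `P` at the folded point. -/
def PP {N : ℕ} (P : MvPolynomial (Fin N) ℚ) (z : Fin (N + 1) → ℝ) : ℝ :=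
  aeval (fun i => OneIneq.fk 1 (z i.succ)) P

/-- The reciprocal integrand. -/
def rc (u w b : ℝ) : ℝ := 1 / ((1 + u ^ 2 * b ^ 2) * ((1 - w * b ^ 2) ^ 2 + b ^ 2))

end Pool.Agent.R59
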