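import Pool.Agent.W_2cf66e_h59.DefsR
import Pool.Agent.W_2cf66e_h57.Rec57

/-!
# MP_2cf66e_nt, reciprocals: leaf R1, the b-integral (helper57)
-/

set_option autoImplicit false

noncomputable section

open MeasureTheory MvPolynomial

namespace Pool.Agent.R59

theorem recip {u w : ℝ} (hu : 0 < u) (huw : u ≤ w) (hw : 1 < 4 * w) :
    Integrable (fun b : ℝ => rc u w b) ∧
      ∫ b : ℝ, rc u w b = Real.pi * ((u + w) / (u ^ 2 + u + w)) := by
  have h := W_2cf66e_h57.recip57 hu huw hw
  exact ⟨h.1, h.2.trans (by rw [mul_div_assoc])⟩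

end Pool.Agent.R59
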