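import Pool.Agent.W_2cf66e_h59.DefsR

/-!
# MP_2cf66e_nt, THEOREM R, leaf R13: the ball (helper83)
-/

set_option autoImplicit false

noncomputable section

open MeasureTheory MvPolynomial

namespace Pool.Agent.R59

theorem R83.unit (k : ℕ) :
    volume {u : Fin k ⊕ Fin k → ℝ | ∑ i, (u i) ^ 2 < 1} =
      ENNReal.ofReal (Real.pi ^ k / (k.factorial : ℝ)) := by
  have h := MeasureTheory.volume_sum_rpow_lt_one (Fin k ⊕ Fin k) (p := 2) (by norm_num)
  have e : {u : Fin k ⊕ Fin k → ℝ | ∑ i, (u i) ^ 2 < 1} =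
      {x : Fin k ⊕ Fin k → ℝ | ∑ i, |x i| ^ (2 : ℝ) < 1} := by
    ext u
    simp only [Set.mem_setOf_eq, Real.rpow_two, sq_abs]
  rw [e, h]
  congr 1
  have h1 : (2 * Real.Gamma (1 / 2 + 1)) = Real.sqrt Real.pi := by
    rw [Real.Gamma_add_one (by norm_num), Real.Gamma_one_half_eq]
    ring
  have h2 : (Fintype.card (Fin k ⊕ Fin k) : ℝ) / 2 + 1 = (k : ℝ) + 1 := by
    rw [Fintype.card_sum, Fintype.card_fin]
    push_cast
    ring
  rw [h1, h2, Real.Gamma_nat_eq_factorial, Fintype.card_sum, Fintype.card_fin, ← two_mul,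
    pow_mul, Real.sq_sqrt Real.pi_pos.le]

theorem R83.prod (k : ℕ) : ∏ i : Fin k, (1 / (((i : ℕ) : ℝ) + 1)) = 1 / (k.factorial : ℝ) := by
  induction k with
  | zero => simp
  | succ n ih =>
    rw [Fin.prod_univ_castSucc]
    simp only [Fin.val_castSucc, Fin.val_last]
    rw [ih, Nat.factorial_succ]
    push_cast
    rw [div_mul_div_comm, one_mul, mul_comm]

/-- The block matrix. -/
def R83.L {k : ℕ} (M : Matrix (Fin k) (Fin k) ℝ) : Matrix (Fin k ⊕ Fin k) (Fin k ⊕ Fin k) ℝ :=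
  Matrix.fromBlocks M 0 0 (Matrix.diagonal fun i : Fin k => 1 / (((i : ℕ) : ℝ) + 1))

theorem R83.det {k : ℕ} (M : Matrix (Fin k) (Fin k) ℝ) :
    (R83.L M).det = M.det * (1 / (k.factorial : ℝ)) := by
  unfold R83.L
  rw [Matrix.det_fromBlocks_zero₂₁, Matrix.det_diagonal, R83.prod]

theorem ball {k : ℕ} (M : Matrix (Fin k) (Fin k) ℝ) (hM : 0 < M.det) :
    volume {v : Fin k ⊕ Fin k → ℝ | ∑ i, (M.mulVec (fun j => v (Sum.inl j)) i) ^ 2 +
      ∑ i : Fin k, (v (Sum.inr i) / ((i : ℕ) + 1)) ^ 2 < 1} =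
      ENNReal.ofReal (Real.pi ^ k * (1 / M.det)) := by
  have hk : (0 : ℝ) < (k.factorial : ℝ) := by exact_mod_cast Nat.factorial_pos k
  have hdet : 0 < (R83.L M).det := by
    rw [R83.det]; positivity
  have e : {v : Fin k ⊕ Fin k → ℝ | ∑ i, (M.mulVec (fun j => v (Sum.inl j)) i) ^ 2 +
      ∑ i : Fin k, (v (Sum.inr i) / ((i : ℕ) + 1)) ^ 2 < 1} =
      (Matrix.toLin' (R83.L M)) ⁻¹' {u : Fin k ⊕ Fin k → ℝ | ∑ i, (u i) ^ 2 < 1} := by
    ext v
    simp only [Set.mem_setOf_eq, Set.mem_preimage, Matrix.toLin'_apply, Fintype.sum_sum_type]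
    have hl : ∀ i : Fin k, (R83.L M).mulVec v (Sum.inl i) =
        M.mulVec (fun j => v (Sum.inl j)) i := by
      intro i
      unfold R83.L
      rw [Matrix.fromBlocks_mulVec]
      simp [Function.comp_def]
    have hr : ∀ i : Fin k, (R83.L M).mulVec v (Sum.inr i) = v (Sum.inr i) / ((i : ℕ) + 1) := by
      intro i
      unfold R83.L
      rw [Matrix.fromBlocks_mulVec]
      simp [Matrix.mulVec_diagonal]
      ring
    simp only [hl, hr]
  have hmeas : MeasurableSet {u : Fin k ⊕ Fin k → ℝ | ∑ i, (u i) ^ 2 < 1} :=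
    measurableSet_lt (by fun_prop) measurable_const
  have hL : Measurable (Matrix.toLin' (R83.L M)) :=
    (LinearMap.continuous_on_pi _).measurable
  rw [e, ← Measure.map_apply hL hmeas,
    Real.map_matrix_volume_pi_eq_smul_volume_pi hdet.ne', Measure.smul_apply, R83.unit,
    smul_eq_mul, ← ENNReal.ofReal_mul (abs_nonneg _)]
  congr 1
  rw [abs_of_pos (inv_pos.mpr hdet), R83.det]
  field_simp

end Pool.Agent.R59
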