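import Pool.Agent.W_2cf66e_h59.DefsR

/-!
# MP_2cf66e_nt, reciprocals, leaf R2: the kernel (helper64)
-/

set_option autoImplicit false

noncomputable section

open MeasureTheory MvPolynomial

namespace Pool.Agent.R59

theorem ker_eq64 {m : ℝ} (hm : 0 < m) (h w : ℝ) :
    ker m h w = h ^ 2 / m * (1 + (h / m * w) ^ 2)⁻¹ := by
  have h1 : 0 < m ^ 2 + h ^ 2 * w ^ 2 := by positivity
  have h2 : 0 < 1 + (h / m * w) ^ 2 := by positivity
  have h3 : 1 + (h / m * w) ^ 2 = (m ^ 2 + h ^ 2 * w ^ 2) / m ^ 2 := by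
    field_simp
  unfold ker
  rw [h3, inv_div]
  field_simp

theorem ker_int {m : ℝ} (hm : 0 < m) (h : ℝ) :
    Integrable (fun w : ℝ => ker m h w) ∧ ∫ w : ℝ, ker m h w = Real.pi * |h| := by
  have e : (fun w : ℝ => ker m h w) = fun w => h ^ 2 / m * (1 + (h / m * w) ^ 2)⁻¹ :=
    funext fun w => ker_eq64 hm h w
  by_cases h0 : h = 0
  · subst h0
    have e0 : (fun w : ℝ => ker m 0 w) = fun _ => 0 := by
      funext w
      unfold ker
      simp
    rw [e0]
    exact ⟨integrable_zero _ _ _, by simp⟩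
  have ha : h / m ≠ 0 := div_ne_zero h0 hm.ne'
  rw [e]
  constructor
  · exact (integrable_inv_one_add_sq.comp_mul_left' ha).const_mul _
  · rw [integral_const_mul, Measure.integral_comp_mul_left (fun x : ℝ => (1 + x ^ 2)⁻¹) (h / m),
      integral_univ_inv_one_add_sq, inv_div, abs_div, abs_of_pos hm, smul_eq_mul]
    have h1 : |h| ≠ 0 := abs_ne_zero.mpr h0
    have h2 : h ^ 2 = |h| ^ 2 := (sq_abs h).symm
    rw [h2]
    field_simp

theorem ker_nonneg {m : ℝ} (hm : 0 < m) (h w : ℝ) : 0 ≤ ker m h w := by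
  unfold ker
  positivity

theorem ker_le {m : ℝ} (hm : 0 < m) (h w : ℝ) : ker m h w ≤ h ^ 2 / m := by
  unfold ker
  rw [div_le_div_iff₀ (by positivity) hm]
  nlinarith [mul_nonneg (sq_nonneg h) (sq_nonneg (h * w))]

/-- monotone in `|h|` -/
theorem ker_mono {m : ℝ} (hm : 0 < m) {h k : ℝ} (hk : |k| ≤ |h|) (w : ℝ) :
    ker m k w ≤ ker m h w := by
  have h1 : k ^ 2 ≤ h ^ 2 := sq_le_sq.mpr hk
  unfold ker
  rw [div_le_div_iff₀ (by positivity) (by positivity)]
  have h2 : k ^ 2 * m ^ 3 ≤ h ^ 2 * m ^ 3 := mul_le_mul_of_nonneg_right h1 (by positivity)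
  nlinarith

end Pool.Agent.R59
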