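import Pool.Agent.W_2cf66e_h59.DefsR

/-!
# MP_2cf66e_nt, reciprocals, leaf R3 (helper35): closure properties
-/

set_option autoImplicit false

noncomputable section

open MeasureTheory MvPolynomial

namespace Pool.Agent.R59

theorem contQ35 {m : ℕ} (f : MvPolynomial (Fin m) ℚ) :
    Continuous (fun u : Fin m → ℝ => (aeval u f : ℝ)) := by
  induction f using MvPolynomial.induction_on with
  | C a => simpa using continuous_const
  | add p q hp hq =>
    simp only [map_add]
    exact hp.add hq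
  | mul_X p j hp =>
    simp only [map_mul, aeval_X]
    exact hp.mul (continuous_apply j)

theorem PG.cont {n : ℕ} {c f : (Fin n → ℝ) → ℝ} (h : PG c f) : Continuous f := by
  obtain ⟨A, B, h⟩ := h
  have hf : f = fun z => (aeval z A : ℝ) / aeval z B := funext fun z => (h z).2.2
  rw [hf]
  refine (contQ35 A).div (contQ35 B) fun z => ?_
  have := (h z).1
  intro h0
  rw [h0] at this
  norm_num at this

theorem PG.mono {n : ℕ} {c d f : (Fin n → ℝ) → ℝ} (h : PG c f) (hd : ∀ z, d z ≤ c z) :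
    PG d f := by
  obtain ⟨A, B, h⟩ := h
  exact ⟨A, B, fun z => ⟨(h z).1, (hd z).trans (h z).2.1, (h z).2.2⟩⟩

theorem PG.add {n : ℕ} {c d f g : (Fin n → ℝ) → ℝ} (hf : PG c f) (hg : PG d g)
    (hc : ∀ z, 0 ≤ c z) (hd : ∀ z, 0 ≤ d z) :
    PG (fun z => c z + d z) (fun z => f z + g z) := by
  obtain ⟨A, B, h⟩ := hf
  obtain ⟨A', B', h'⟩ := hg
  refine ⟨A * B' + A' * B, B * B', fun z => ?_⟩
  obtain ⟨h1, h2, h3⟩ := h z
  obtain ⟨h1', h2', h3'⟩ := h' z
  have hA : 0 ≤ (aeval z A : ℝ) := (hc z).trans h2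
  have hA' : 0 ≤ (aeval z A' : ℝ) := (hd z).trans h2'
  refine ⟨?_, ?_, ?_⟩
  · rw [map_mul]
    nlinarith
  · rw [map_add, map_mul, map_mul]
    nlinarith [mul_le_mul_of_nonneg_left h1' hA, mul_le_mul_of_nonneg_left h1 hA']
  · have hB : (aeval z B : ℝ) ≠ 0 := by linarith
    have hB' : (aeval z B' : ℝ) ≠ 0 := by linarith
    show f z + g z = _
    rw [h3, h3', map_add, map_mul, map_mul, map_mul]
    field_simp

theorem PG.sum {n : ℕ} {α : Type} (s : Finset α) {c f : α → (Fin n → ℝ) → ℝ}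
    (h : ∀ a ∈ s, PG (c a) (f a)) (hc : ∀ a ∈ s, ∀ z, 0 ≤ c a z) :
    PG (fun z => ∑ a ∈ s, c a z) (fun z => ∑ a ∈ s, f a z) := by
  classical
  induction s using Finset.induction_on with
  | empty =>
    refine ⟨0, 1, fun z => ?_⟩
    simp
  | insert a s ha ih =>
    have h1 := ih (fun b hb => h b (Finset.mem_insert_of_mem hb))
      (fun b hb => hc b (Finset.mem_insert_of_mem hb))
    have h2 := (h a (Finset.mem_insert_self a s)).add h1 (hc a (Finset.mem_insert_self a s))
      fun z => Finset.sum_nonneg fun b hb => hc b (Finset.mem_insert_of_mem hb) z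
    have e1 : (fun z => ∑ a ∈ insert a s, c a z) = fun z => c a z + ∑ a ∈ s, c a z := by
      funext z
      rw [Finset.sum_insert ha]
    have e2 : (fun z => ∑ a ∈ insert a s, f a z) = fun z => f a z + ∑ a ∈ s, f a z := by
      funext z
      rw [Finset.sum_insert ha]
    rw [e1, e2]
    exact h2

theorem PG.smul {n : ℕ} {c f : (Fin n → ℝ) → ℝ} (h : PG c f) (q : ℚ) (hq : 0 < q) :
    PG (fun z => (q : ℝ) * c z) (fun z => (q : ℝ) * f z) := by
  obtain ⟨A, B, h⟩ := h
  have hq' : (0 : ℝ) < q := by exact_mod_cast hq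
  refine ⟨C q * A, B, fun z => ⟨(h z).1, ?_, ?_⟩⟩
  · rw [map_mul, aeval_C]
    exact mul_le_mul_of_nonneg_left (h z).2.1 hq'.le
  · show (q : ℝ) * f z = _
    rw [(h z).2.2, map_mul, aeval_C, mul_div_assoc]
    rfl

theorem PG.shift {n : ℕ} {c f : (Fin n → ℝ) → ℝ} (h : PG c f) (v : Fin n → ℚ) :
    PG (fun z => c (fun i => z i - v i)) (fun z => f (fun i => z i - v i)) := by
  obtain ⟨A, B, h⟩ := h
  have key : ∀ (P : MvPolynomial (Fin n) ℚ) (z : Fin n → ℝ),
      (aeval z (aeval (fun i => (X i - C (v i) : MvPolynomial (Fin n) ℚ)) P) : ℝ) =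
        aeval (fun i => z i - (v i : ℝ)) P := by
    intro P z
    rw [← AlgHom.comp_apply]
    congr 1
    refine MvPolynomial.algHom_ext fun j => ?_
    rw [AlgHom.comp_apply, aeval_X, aeval_X, map_sub, aeval_X, aeval_C]
    rfl
  refine ⟨aeval (fun i => (X i - C (v i) : MvPolynomial (Fin n) ℚ)) A,
    aeval (fun i => (X i - C (v i) : MvPolynomial (Fin n) ℚ)) B, fun z => ?_⟩
  rw [key, key]
  exact h (fun i => z i - (v i : ℝ))

end Pool.Agent.R59
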