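import Pool.Agent.W_2cf66e_h59.LR5

/-!
# MP_2cf66e_nt, reciprocals: leaf R4, the terms are quotients of polynomials (helper6)
-/

set_option autoImplicit false

noncomputable section

open MeasureTheory MvPolynomial

namespace Pool.Agent.R59

/-- The product of the `1 + X_i ^ 2`. -/
def vv4 (N : ℕ) : MvPolynomial (Fin N) ℚ := ∏ i : Fin N, (1 + X i ^ 2)

theorem vv4_eval {N : ℕ} (t : Fin N → ℝ) : (aeval t (vv4 N) : ℝ) = ∏ i, (1 + t i ^ 2) := by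
  unfold vv4
  rw [map_prod]
  exact Finset.prod_congr rfl fun i _ => by simp

theorem prod_ge4 {N : ℕ} {f : Fin N → ℝ} (h : ∀ i, 1 ≤ f i) : 1 ≤ ∏ i, f i :=
  Finset.prod_induction f (fun x : ℝ => 1 ≤ x)
    (fun _ _ ha hb => one_le_mul_of_one_le_of_one_le ha hb) le_rfl fun i _ => h i

theorem vv4_ge {N : ℕ} (t : Fin N → ℝ) : 1 ≤ ∏ i, (1 + t i ^ 2) :=
  prod_ge4 fun i => by nlinarith [sq_nonneg (t i)]

/-- Clearing the denominators at the folded point. -/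
theorem clear4 {N : ℕ} (P : MvPolynomial (Fin N) ℚ) : ∃ (D : ℕ) (Q : MvPolynomial (Fin N) ℚ),
    ∀ t : Fin N → ℝ, (aeval (fun i => OneIneq.fk 1 (t i)) P : ℝ) * (aeval t (vv4 N) : ℝ) ^ D =
      aeval t Q := by
  induction P using MvPolynomial.induction_on with
  | C a => exact ⟨0, C a, fun t => by simp⟩
  | add p q hp hq =>
    obtain ⟨D, Q, h1⟩ := hp
    obtain ⟨D', Q', h2⟩ := hq
    refine ⟨D + D', Q * vv4 N ^ D' + Q' * vv4 N ^ D, fun t => ?_⟩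
    rw [map_add, map_add, map_mul, map_mul, map_pow, map_pow, ← h1 t, ← h2 t]
    ring
  | mul_X p i hp =>
    obtain ⟨D, Q, h1⟩ := hp
    refine ⟨D + 1, Q * ∏ j ∈ Finset.univ.erase i, (1 + X j ^ 2), fun t => ?_⟩
    have h2 : (aeval t (vv4 N) : ℝ) = (1 + t i ^ 2) * ∏ j ∈ Finset.univ.erase i, (1 + t j ^ 2) := by
      rw [vv4_eval]
      exact (Finset.mul_prod_erase Finset.univ (fun j => 1 + t j ^ 2) (Finset.mem_univ i)).symm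
    have h3 : (aeval t (∏ j ∈ Finset.univ.erase i, (1 + X j ^ 2 : MvPolynomial (Fin N) ℚ)) : ℝ) =
        ∏ j ∈ Finset.univ.erase i, (1 + t j ^ 2) := by
      rw [map_prod]
      exact Finset.prod_congr rfl fun i _ => by simp
    have h4 : OneIneq.fk 1 (t i) * (1 + t i ^ 2) = 1 := by
      unfold OneIneq.fk
      rw [pow_one]
      exact one_div_mul_cancel (by positivity)
    rw [map_mul, map_mul, h3, ← h1 t, aeval_X, pow_succ]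
    calc _ = (aeval (fun i => OneIneq.fk 1 (t i)) p : ℝ) * (aeval t (vv4 N) : ℝ) ^ D *
          (OneIneq.fk 1 (t i) * (aeval t (vv4 N) : ℝ)) := by ring
      _ = _ := by
        rw [h2, ← mul_assoc (OneIneq.fk 1 (t i)), h4, one_mul]

/-- The polynomial of the weight. -/
def wp4 (N : ℕ) : MvPolynomial (Fin (N + 1)) ℚ := ∏ i : Fin N, (1 + X i.succ ^ 2) ^ 2

theorem wp4_eval {N : ℕ} (z : Fin (N + 1) → ℝ) : (aeval z (wp4 N) : ℝ) = WW z := by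
  unfold wp4 WW
  rw [map_prod]
  exact Finset.prod_congr rfl fun i _ => by simp

theorem WW_ge4 {N : ℕ} (z : Fin (N + 1) → ℝ) : 1 ≤ WW z := by
  unfold WW
  exact prod_ge4 fun i => one_le_pow₀ (by nlinarith [sq_nonneg (z i.succ)])

/-- The polynomial of the product. -/
def tp4 (N : ℕ) : MvPolynomial (Fin (N + 1)) ℚ := ∏ i : Fin N, X i.succ

theorem tp4_eval {N : ℕ} (z : Fin (N + 1) → ℝ) : (aeval z (tp4 N) : ℝ) = TT z := by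
  unfold tp4 TT
  rw [map_prod]
  exact Finset.prod_congr rfl fun i _ => by simp

theorem pg_main {N : ℕ} (m : ℚ) (hm : 1 ≤ m) :
    PG (fun z : Fin (N + 1) → ℝ => (m : ℝ) * TT z ^ 2) (fun z => ker m (TT z) (z 0) / WW z) := by
  have hm' : (1 : ℝ) ≤ (m : ℝ) := by exact_mod_cast hm
  refine ⟨C m * tp4 N ^ 2, (C (m ^ 2) + tp4 N ^ 2 * X 0 ^ 2) * wp4 N, fun z => ?_⟩
  have e1 : (aeval z (C m * tp4 N ^ 2) : ℝ) = (m : ℝ) * TT z ^ 2 := by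
    rw [map_mul, map_pow, tp4_eval, aeval_C]
    rfl
  have e2 : (aeval z ((C (m ^ 2) + tp4 N ^ 2 * X 0 ^ 2) * wp4 N) : ℝ) =
      ((m : ℝ) ^ 2 + TT z ^ 2 * z 0 ^ 2) * WW z := by
    simp only [map_mul, map_add, map_pow, tp4_eval, wp4_eval, aeval_C, aeval_X]
    simp
  have h1 : 1 ≤ (m : ℝ) ^ 2 + TT z ^ 2 * z 0 ^ 2 := by
    have h2 : 0 ≤ TT z ^ 2 * z 0 ^ 2 := by positivity
    nlinarith
  rw [e1, e2]
  refine ⟨one_le_mul_of_one_le_of_one_le h1 (WW_ge4 z), le_rfl, ?_⟩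
  unfold ker
  beta_reduce
  rw [div_div, mul_comm (TT z ^ 2) (m : ℝ)]

theorem pg_term {N : ℕ} (m : ℚ) (hm : 1 ≤ m) (P : MvPolynomial (Fin N) ℚ) (σ : ℚ)
    (hσ : ∀ u ∈ CVol.ucube (Fin N), |(aeval u P : ℝ)| ≤ σ) (e : Bool) :
    PG (fun _ : Fin (N + 1) → ℝ => 0) (fun z => (ker m (σ * TT z) (z 0) +
      (if e then (1 : ℝ) else -1) * ker m (PP P z * TT z) (z 0)) / WW z) := by
  have hm' : (1 : ℝ) ≤ (m : ℝ) := by exact_mod_cast hm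
  obtain ⟨D, Q, hQ⟩ := clear4 P
  obtain ⟨s, hs⟩ : ∃ s : ℚ, s = if e then (1 : ℚ) else -1 := ⟨_, rfl⟩
  obtain ⟨q, hq⟩ : ∃ q : MvPolynomial (Fin (N + 1)) ℚ, q = rename Fin.succ Q := ⟨_, rfl⟩
  obtain ⟨v, hv⟩ : ∃ v : MvPolynomial (Fin (N + 1)) ℚ, v = rename Fin.succ (vv4 N ^ D) :=
    ⟨_, rfl⟩
  refine ⟨C (σ ^ 2) * tp4 N ^ 2 * C m * (C (m ^ 2) * v ^ 2 + q ^ 2 * tp4 N ^ 2 * X 0 ^ 2) +
      C s * (q ^ 2 * tp4 N ^ 2 * C m * (C (m ^ 2) + C (σ ^ 2) * tp4 N ^ 2 * X 0 ^ 2)),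
    (C (m ^ 2) + C (σ ^ 2) * tp4 N ^ 2 * X 0 ^ 2) *
      (C (m ^ 2) * v ^ 2 + q ^ 2 * tp4 N ^ 2 * X 0 ^ 2) * wp4 N, fun z => ?_⟩
  obtain ⟨V, hV⟩ : ∃ V : ℝ, V = (aeval z v : ℝ) := ⟨_, rfl⟩
  obtain ⟨K, hK⟩ : ∃ K : ℝ, K = (aeval z q : ℝ) := ⟨_, rfl⟩
  obtain ⟨T, hT⟩ : ∃ T : ℝ, T = TT z := ⟨_, rfl⟩
  obtain ⟨W, hW⟩ : ∃ W : ℝ, W = WW z := ⟨_, rfl⟩
  have hV1 : 1 ≤ V := by
    rw [hV, hv, aeval_rename, map_pow, vv4_eval]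
    exact one_le_pow₀ (vv4_ge _)
  have hW1 : 1 ≤ W := by
    rw [hW]
    exact WW_ge4 z
  have hPK : PP P z * V = K := by
    rw [hV, hK, hv, hq, aeval_rename, aeval_rename, map_pow, ← hQ]
    rfl
  have hPP : PP P z = K / V := by
    rw [← hPK, mul_div_cancel_right₀ _ (by positivity)]
  have hle : |PP P z| ≤ (σ : ℝ) := hσ _ (fold_mem5 z)
  have hσ0 : (0 : ℝ) ≤ (σ : ℝ) := (abs_nonneg _).trans hle
  have hK2 : K ^ 2 ≤ (σ : ℝ) ^ 2 * V ^ 2 := by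
    rw [← hPK, mul_pow]
    refine mul_le_mul_of_nonneg_right ?_ (sq_nonneg V)
    rw [← sq_abs (PP P z)]
    exact pow_le_pow_left₀ (abs_nonneg _) hle 2
  have eA : (aeval z (C (σ ^ 2) * tp4 N ^ 2 * C m * (C (m ^ 2) * v ^ 2 + q ^ 2 * tp4 N ^ 2 *
      X 0 ^ 2) + C s * (q ^ 2 * tp4 N ^ 2 * C m * (C (m ^ 2) + C (σ ^ 2) * tp4 N ^ 2 *
      X 0 ^ 2))) : ℝ) =
      (σ : ℝ) ^ 2 * T ^ 2 * m * ((m : ℝ) ^ 2 * V ^ 2 + K ^ 2 * T ^ 2 * z 0 ^ 2) +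
      (s : ℝ) * (K ^ 2 * T ^ 2 * m * ((m : ℝ) ^ 2 + (σ : ℝ) ^ 2 * T ^ 2 * z 0 ^ 2)) := by
    simp only [map_mul, map_add, map_pow, tp4_eval, aeval_C, aeval_X, ← hV, ← hK, ← hT]
    simp
  have eB : (aeval z ((C (m ^ 2) + C (σ ^ 2) * tp4 N ^ 2 * X 0 ^ 2) *
      (C (m ^ 2) * v ^ 2 + q ^ 2 * tp4 N ^ 2 * X 0 ^ 2) * wp4 N) : ℝ) =
      ((m : ℝ) ^ 2 + (σ : ℝ) ^ 2 * T ^ 2 * z 0 ^ 2) *
        ((m : ℝ) ^ 2 * V ^ 2 + K ^ 2 * T ^ 2 * z 0 ^ 2) * W := by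
    simp only [map_mul, map_add, map_pow, tp4_eval, wp4_eval, aeval_C, aeval_X, ← hV, ← hK, ← hT,
      ← hW]
    simp
  beta_reduce
  rw [eA, eB, hPP, ← hT, ← hW]
  obtain ⟨M, hM⟩ : ∃ M : ℝ, M = (m : ℝ) := ⟨_, rfl⟩
  obtain ⟨S, hS⟩ : ∃ S : ℝ, S = (σ : ℝ) := ⟨_, rfl⟩
  rw [← hM] at hm' ⊢
  rw [← hS] at hσ0 hK2 ⊢
  have hM2 : 1 ≤ M ^ 2 := one_le_pow₀ hm'
  have hV2 : 1 ≤ V ^ 2 := one_le_pow₀ hV1
  have b1 : 1 ≤ M ^ 2 + S ^ 2 * T ^ 2 * z 0 ^ 2 := by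
    have : 0 ≤ S ^ 2 * T ^ 2 * z 0 ^ 2 := by positivity
    linarith
  have b2 : 1 ≤ M ^ 2 * V ^ 2 + K ^ 2 * T ^ 2 * z 0 ^ 2 := by
    have h3 : 0 ≤ K ^ 2 * T ^ 2 * z 0 ^ 2 := by positivity
    have h4 : 1 ≤ M ^ 2 * V ^ 2 := one_le_mul_of_one_le_of_one_le hM2 hV2
    linarith
  have hV0 : V ≠ 0 := by positivity
  refine ⟨one_le_mul_of_one_le_of_one_le (one_le_mul_of_one_le_of_one_le b1 b2) hW1, ?_, ?_⟩
  · have hM0 : 0 ≤ M := by linarith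
    cases e
    · have hs' : (s : ℝ) = -1 := by
        rw [hs]
        simp
      rw [hs']
      have h5 : 0 ≤ T ^ 2 * M * M ^ 2 * (S ^ 2 * V ^ 2 - K ^ 2) :=
        mul_nonneg (by positivity) (by linarith)
      nlinarith
    · have hs' : (s : ℝ) = 1 := by
        rw [hs]
        simp
      rw [hs']
      positivity
  · have hs' : (if e then (1 : ℝ) else -1) = (s : ℝ) := by
      rw [hs]
      cases e <;> simp
    rw [hs']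
    unfold ker
    have c1 : M ^ 2 + (S * T) ^ 2 * z 0 ^ 2 ≠ 0 := by
      rw [mul_pow]
      positivity
    have c2 : M ^ 2 + (K / V * T) ^ 2 * z 0 ^ 2 ≠ 0 := by
      have : 0 ≤ (K / V * T) ^ 2 * z 0 ^ 2 := by positivity
      nlinarith
    have e3 : (K / V * T) ^ 2 * M / (M ^ 2 + (K / V * T) ^ 2 * z 0 ^ 2) =
        K ^ 2 * T ^ 2 * M / (M ^ 2 * V ^ 2 + K ^ 2 * T ^ 2 * z 0 ^ 2) := by
      rw [div_eq_div_iff c2 (by positivity)]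
      field_simp
    rw [e3, mul_pow]
    have c3 : M ^ 2 + S ^ 2 * T ^ 2 * z 0 ^ 2 ≠ 0 := by positivity
    have c4 : M ^ 2 * V ^ 2 + K ^ 2 * T ^ 2 * z 0 ^ 2 ≠ 0 := by positivity
    have c5 : W ≠ 0 := by positivity
    rw [mul_div_assoc']
    rw [div_add_div _ _ c3 c4, div_div]
    congr 1
    ring

end Pool.Agent.R59
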