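import Pool.Agent.W_2cf66e_h59.DefsR

/-!
# MP_2cf66e_nt, reciprocals: leaf R5, bounds (helper6)
-/

set_option autoImplicit false

noncomputable section

open MeasureTheory MvPolynomial

namespace Pool.Agent.R59

theorem ker_le5 {m : ℝ} (hm : 0 < m) (h w : ℝ) : ker m h w ≤ h ^ 2 / m := by
  unfold ker
  rw [div_le_div_iff₀ (by positivity) hm]
  have h1 : 0 ≤ h ^ 2 * (h ^ 2 * w ^ 2) := by positivity
  nlinarith

theorem ker_nn5 {m : ℝ} (hm : 0 < m) (h w : ℝ) : 0 ≤ ker m h w := by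
  unfold ker
  positivity

theorem WW_pos5 {N : ℕ} (z : Fin (N + 1) → ℝ) : 0 < WW z := by
  unfold WW
  exact Finset.prod_pos fun i _ => by positivity

theorem TT_sq5 {N : ℕ} (z : Fin (N + 1) → ℝ) : TT z ^ 2 ≤ WW z := by
  unfold TT WW
  rw [← Finset.prod_pow]
  exact Finset.prod_le_prod (fun i _ => by positivity) fun i _ => by nlinarith [sq_nonneg (z i.succ)]

/-- The folded point is in the cube. -/
theorem fold_mem5 {N : ℕ} (z : Fin (N + 1) → ℝ) :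
    (fun i : Fin N => OneIneq.fk 1 (z i.succ)) ∈ CVol.ucube (Fin N) :=
  ⟨fun i => (OneIneq.fk_mem 1 (z i.succ)).1, fun i => (OneIneq.fk_mem 1 (z i.succ)).2⟩

theorem main_le {N : ℕ} {m : ℝ} (hm : 0 < m) (z : Fin (N + 1) → ℝ) :
    ker m (TT z) (z 0) / WW z ≤ 1 / m := by
  rw [div_le_div_iff₀ (WW_pos5 z) hm, one_mul]
  have h1 := ker_le5 hm (TT z) (z 0)
  rw [le_div_iff₀ hm] at h1
  exact h1.trans (TT_sq5 z)

theorem term_le {N : ℕ} {m : ℝ} (hm : 0 < m) (P : MvPolynomial (Fin N) ℚ) (σ : ℝ)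
    (hσ : ∀ u ∈ CVol.ucube (Fin N), |(aeval u P : ℝ)| ≤ σ) (e : Bool) (z : Fin (N + 1) → ℝ) :
    (ker m (σ * TT z) (z 0) +
      (if e then (1 : ℝ) else -1) * ker m (PP P z * TT z) (z 0)) / WW z ≤ 2 * σ ^ 2 / m := by
  have h1 := ker_le5 hm (σ * TT z) (z 0)
  have h2 := ker_le5 hm (PP P z * TT z) (z 0)
  have h3 := ker_nn5 hm (PP P z * TT z) (z 0)
  have h4 : |PP P z| ≤ σ := hσ _ (fold_mem5 z)
  have h5 : PP P z ^ 2 ≤ σ ^ 2 := by
    rw [← sq_abs (PP P z)]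
    exact pow_le_pow_left₀ (abs_nonneg _) h4 2
  have h6 := TT_sq5 z
  have h7 : (σ * TT z) ^ 2 / m ≤ σ ^ 2 * WW z / m := by
    rw [mul_pow]
    exact div_le_div_of_nonneg_right (mul_le_mul_of_nonneg_left h6 (sq_nonneg σ)) hm.le
  have h8 : (PP P z * TT z) ^ 2 / m ≤ σ ^ 2 * WW z / m := by
    rw [mul_pow]
    exact div_le_div_of_nonneg_right (mul_le_mul h5 h6 (sq_nonneg _) (sq_nonneg σ)) hm.le
  have h9 : 0 ≤ σ ^ 2 * WW z / m := by
    have := (WW_pos5 z).le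
    positivity
  rw [div_le_iff₀ (WW_pos5 z)]
  have e1 : 2 * σ ^ 2 / m * WW z = 2 * (σ ^ 2 * WW z / m) := by ring
  rw [e1]
  cases e
  · simp only [Bool.false_eq_true, if_false]
    linarith
  · simp only [if_true]
    linarith

end Pool.Agent.R59
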