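import Pool.Agent.W_2cf66e_h59.DefsR

/-!
# MP_2cf66e_nt, reciprocals: leaf R6, from the cube to the whole space (helper3)
-/

set_option autoImplicit false

noncomputable section

open MeasureTheory MvPolynomial
open scoped ENNReal

namespace Pool.Agent.R59

theorem cube_int {N : ℕ} (F : (Fin (N + 1) → ℝ) → ℝ) (hF : Continuous F) (h0 : ∀ z, 0 ≤ F z)
    (g : (Fin N → ℝ) → ℝ) (hg : Continuous g) (hg0 : ∀ u ∈ CVol.ucube (Fin N), 0 ≤ g u)
    (h1 : ∀ t : Fin N → ℝ, Integrable (fun w : ℝ => F (Fin.cons w t)) ∧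
      ∫ w : ℝ, F (Fin.cons w t) =
        Real.pi * ((∏ i, OneIneq.rk 1 (t i)) * g (fun i => OneIneq.fk 1 (t i)))) :
    Integrable F ∧ ∫ z, F z = Real.pi * ∫ u in CVol.ucube (Fin N), g u := by
  have hFm : Measurable (fun z => ENNReal.ofReal (F z)) := hF.measurable.ennreal_ofReal
  have hgm : Measurable (fun u => ENNReal.ofReal (g u)) := hg.measurable.ennreal_ofReal
  have hc : IsCompact (CVol.ucube (Fin N)) := isCompact_Icc
  have hcm : MeasurableSet (CVol.ucube (Fin N)) := measurableSet_Icc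
  have hgi : IntegrableOn g (CVol.ucube (Fin N)) := hg.continuousOn.integrableOn_compact hc
  have hg1 : ∫⁻ u in CVol.ucube (Fin N), ENNReal.ofReal (g u) =
      ENNReal.ofReal (∫ u in CVol.ucube (Fin N), g u) := by
    refine (ofReal_integral_eq_lintegral_ofReal hgi ?_).symm
    exact (ae_restrict_iff' hcm).2 (Filter.Eventually.of_forall hg0)
  have hI0 : 0 ≤ ∫ u in CVol.ucube (Fin N), g u := setIntegral_nonneg hcm hg0
  have hm2 : Measurable fun z : ℝ × (Fin N → ℝ) =>
      ENNReal.ofReal (F (Fin.cons z.1 z.2 : Fin (N + 1) → ℝ)) :=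
    hFm.comp (OneIneq.meas_cons N)
  have key : ∫⁻ z, ENNReal.ofReal (F z) =
      ENNReal.ofReal (Real.pi * ∫ u in CVol.ucube (Fin N), g u) := by
    rw [OneIneq.fub_cons hFm, lintegral_lintegral_swap hm2.aemeasurable]
    have e1 : ∀ t : Fin N → ℝ, ∫⁻ w : ℝ, ENNReal.ofReal (F (Fin.cons w t)) =
        ENNReal.ofReal Real.pi * ((∏ i, ENNReal.ofReal (OneIneq.rk 1 (t i))) *
          ENNReal.ofReal (g (fun i => OneIneq.fk 1 (t i)))) := by
      intro t
      rw [← ofReal_integral_eq_lintegral_ofReal (h1 t).1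
        (Filter.Eventually.of_forall fun w => h0 _), (h1 t).2,
        ENNReal.ofReal_mul Real.pi_pos.le, ENNReal.ofReal_mul
          (Finset.prod_nonneg fun i _ => OneIneq.rk_nonneg 1 _),
        ENNReal.ofReal_prod_of_nonneg fun i _ => OneIneq.rk_nonneg 1 _]
    rw [lintegral_congr e1, lintegral_const_mul' _ _ ENNReal.ofReal_ne_top,
      OneIneq.fk_all one_pos N _ hgm, hg1, ENNReal.ofReal_mul Real.pi_pos.le]
  have hi : Integrable F := by
    refine ⟨hF.aestronglyMeasurable, ?_⟩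
    rw [hasFiniteIntegral_iff_ofReal (Filter.Eventually.of_forall h0), key]
    exact ENNReal.ofReal_lt_top
  refine ⟨hi, ?_⟩
  rw [integral_eq_lintegral_of_nonneg_ae (Filter.Eventually.of_forall h0)
    hF.aestronglyMeasurable, key, ENNReal.toReal_ofReal (mul_nonneg Real.pi_pos.le hI0)]

end Pool.Agent.R59
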