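import Pool.Agent.W_2cf66e_h59.LR2
import Pool.Agent.W_2cf66e_h59.LR3
import Pool.Agent.W_2cf66e_h59.LR4
import Pool.Agent.W_2cf66e_h59.LR5
import Pool.Agent.W_2cf66e_h59.LR6
import Pool.Agent.W_2cf66e_h3.Sub

/-!
# MP_2cf66e_nt, reciprocals: leaf R7, the kernel form (helper59)
-/

set_option autoImplicit false

noncomputable section

open MeasureTheory MvPolynomial

namespace Pool.Agent.R59

/-- the volume of the cube is one -/
theorem cube_one59 (N : ℕ) (a : ℝ) : ∫ _u in CVol.ucube (Fin N), a = a := by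
  have h : volume (CVol.ucube (Fin N)) = 1 := by
    have h1 : CVol.ucube (Fin N) = Set.univ.pi fun _ : Fin N => Set.Icc (0 : ℝ) 1 := by
      ext u
      rw [CVol.ucube, Set.mem_Icc, Pi.le_def, Pi.le_def, Set.mem_univ_pi]
      exact ⟨fun h i => ⟨h.1 i, h.2 i⟩, fun h => ⟨fun i => (h i).1, fun i => (h i).2⟩⟩
    rw [h1, volume_pi_pi]
    simp
  rw [setIntegral_const, measureReal_def, h]
  simp

theorem rk_prod59 {N : ℕ} (t : Fin N → ℝ) :
    ∏ i, OneIneq.rk 1 (t i) = |∏ i, t i| / ∏ i, (1 + (t i) ^ 2) ^ 2 := by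
  rw [Finset.abs_prod, ← Finset.prod_div_distrib]
  refine Finset.prod_congr rfl fun i _ => ?_
  simp [OneIneq.rk]

theorem kform {x : ℝ} (h : OneIneq.AV x) (hx : 0 < x) :
    ∃ (N : ℕ) (κ : ℚ) (F : (Fin (N + 1) → ℝ) → ℝ), 0 < κ ∧
      PG (fun z => (κ : ℝ) * TT z ^ 2) F ∧ (∀ z, F z ≤ 1 / 2) ∧ Integrable F ∧
      ∫ z, F z = Real.pi * x := by
  obtain ⟨N, α, iα, r, σ, P, s, hs, hsum, hx'⟩ := h.small (ε := x / 8) (by positivity)
  obtain ⟨K, hK⟩ : ∃ K : ℝ, K = 8 * ((Fintype.card α : ℝ) + 1) := ⟨_, rfl⟩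
  have hKpos : 0 < K := by rw [hK]; positivity
  choose S hS1 hS2 using fun a : α => exists_rat_btwn
    (show s a < s a + x / K by linarith [div_pos hx hKpos])
  have hzero : (fun _ => (0 : ℝ)) ∈ CVol.ucube (Fin N) := by
    rw [CVol.ucube, Set.mem_Icc, Pi.le_def, Pi.le_def]
    exact ⟨fun _ => le_refl _, fun _ => zero_le_one⟩
  have hs0 : ∀ a, 0 ≤ s a := fun a => (abs_nonneg _).trans (hs a _ hzero)
  have hSpos : ∀ a, 0 < (S a : ℝ) := fun a => lt_of_le_of_lt (hs0 a) (hS1 a)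
  have hSP : ∀ a, ∀ u ∈ CVol.ucube (Fin N), |(aeval u (P a) : ℝ)| ≤ S a :=
    fun a u hu => (hs a u hu).trans (hS1 a).le
  have hSsum : ∑ a, (S a : ℝ) ≤ x / 4 := by
    have h1 : ∑ a, (S a : ℝ) ≤ ∑ a, (s a + x / K) := Finset.sum_le_sum fun a _ => (hS2 a).le
    rw [Finset.sum_add_distrib, Finset.sum_const, Finset.card_univ, nsmul_eq_mul] at h1
    have h2 : (Fintype.card α : ℝ) * (x / K) ≤ x / 8 := by
      rw [hK, mul_div_assoc', div_le_div_iff₀ (by positivity) (by norm_num)]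
      nlinarith
    linarith
  have hint : ∀ a, abs (∫ z in CVol.ucube (Fin N), |(aeval z (P a) : ℝ)|) ≤ s a := by
    intro a
    rw [abs_of_nonneg (integral_nonneg fun _ => abs_nonneg _)]
    calc ∫ z in CVol.ucube (Fin N), |(aeval z (P a) : ℝ)|
        ≤ ∫ _z in CVol.ucube (Fin N), s a := by
          refine setIntegral_mono_on (OneIneq.abs_int (P a)) ?_ (OneIneq.ucube_meas _) (hs a)
          exact continuousOn_const.integrableOn_compact (OneIneq.ucube_compact _)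
      _ = s a := cube_one59 N _
  have hsgn : ∀ b : Bool, |(if b then (1 : ℝ) else -1)| = 1 := by intro b; cases b <;> simp
  have hr : x - x / 8 ≤ (r : ℝ) := by
    have h1 : abs (∑ a, (if σ a then (1 : ℝ) else -1) *
        ∫ z in CVol.ucube (Fin N), |(aeval z (P a) : ℝ)|) ≤ ∑ a, s a := by
      refine (Finset.abs_sum_le_sum_abs _ _).trans (Finset.sum_le_sum fun a _ => ?_)
      rw [abs_mul, hsgn, one_mul]
      exact hint a
    have h2 := abs_le.1 (h1.trans hsum)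
    linarith [h2.2]
  obtain ⟨τ, hτ⟩ : ∃ τ : ℚ, τ = r - ∑ a, S a := ⟨_, rfl⟩
  have hτR : (τ : ℝ) = r - ∑ a, (S a : ℝ) := by rw [hτ]; push_cast; rfl
  have hτpos : 0 < τ := by
    have : (0 : ℝ) < (τ : ℝ) := by rw [hτR]; linarith
    exact_mod_cast this
  have hτpos' : (0 : ℝ) < (τ : ℝ) := by exact_mod_cast hτpos
  obtain ⟨M, hM⟩ := exists_nat_ge (2 * ((τ : ℝ) + ∑ a, 2 * (S a : ℝ) ^ 2) + 1)
  obtain ⟨m, hm⟩ : ∃ m : ℚ, m = (M : ℚ) := ⟨_, rfl⟩
  have hmR : 2 * ((τ : ℝ) + ∑ a, 2 * (S a : ℝ) ^ 2) + 1 ≤ (m : ℝ) := by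
    rw [hm]; push_cast; exact hM
  have hsq : 0 ≤ ∑ a, 2 * (S a : ℝ) ^ 2 := Finset.sum_nonneg fun a _ => by positivity
  have hm1 : 1 ≤ m := by
    have : (1 : ℝ) ≤ (m : ℝ) := by linarith
    exact_mod_cast this
  have hm0 : (0 : ℝ) < (m : ℝ) := by
    have : (1 : ℝ) ≤ (m : ℝ) := by exact_mod_cast hm1
    linarith
  obtain ⟨F, hF⟩ : ∃ F : (Fin (N + 1) → ℝ) → ℝ, F = fun z =>
      (τ : ℝ) * (ker m (TT z) (z 0) / WW z) + ∑ a, (ker m (S a * TT z) (z 0) +
        (if σ a then (1 : ℝ) else -1) * ker m (PP (P a) z * TT z) (z 0)) / WW z := ⟨_, rfl⟩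
  have hPG : PG (fun z : Fin (N + 1) → ℝ => ((τ * m : ℚ) : ℝ) * TT z ^ 2) F := by
    have h1 := ((pg_main (N := N) m hm1).smul τ hτpos).add
      (PG.sum Finset.univ (fun a _ => pg_term m hm1 (P a) (S a) (hSP a) (σ a))
        (fun a _ z => le_refl _)) (fun z => by positivity) (fun z => by simp)
    rw [hF]
    refine h1.mono fun z => ?_
    push_cast
    simp only [Finset.sum_const_zero, add_zero]
    rw [mul_assoc]
  have hFle : ∀ z, F z ≤ 1 / 2 := by
    intro z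
    rw [hF]
    beta_reduce
    have h1 : (τ : ℝ) * (ker m (TT z) (z 0) / WW z) ≤ τ * (1 / m) :=
      mul_le_mul_of_nonneg_left (main_le hm0 z) hτpos'.le
    have h2 : ∑ a, (ker m (S a * TT z) (z 0) + (if σ a then (1 : ℝ) else -1) *
        ker m (PP (P a) z * TT z) (z 0)) / WW z ≤ ∑ a, 2 * (S a : ℝ) ^ 2 / m :=
      Finset.sum_le_sum fun a _ => term_le hm0 (P a) (S a) (hSP a) (σ a) z
    have h4 : ∑ a, 2 * (S a : ℝ) ^ 2 / (m : ℝ) = (∑ a, 2 * (S a : ℝ) ^ 2) / (m : ℝ) :=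
      (Finset.sum_div _ _ _).symm
    rw [h4] at h2
    have h3 : (τ : ℝ) * (1 / m) + (∑ a, 2 * (S a : ℝ) ^ 2) / m ≤ 1 / 2 := by
      rw [mul_one_div, ← add_div, div_le_div_iff₀ hm0 (by norm_num)]
      linarith
    linarith
  obtain ⟨g, hg⟩ : ∃ g : (Fin N → ℝ) → ℝ, g = fun u =>
      (τ : ℝ) + ∑ a, ((S a : ℝ) + (if σ a then (1 : ℝ) else -1) * |(aeval u (P a) : ℝ)|) :=
    ⟨_, rfl⟩
  have hgc : Continuous g := by
    rw [hg]
    refine continuous_const.add (continuous_finsetSum _ fun a _ => ?_)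
    exact continuous_const.add (continuous_const.mul (CVol.HCell_cont (P a)).abs)
  have hg0 : ∀ u ∈ CVol.ucube (Fin N), 0 ≤ g u := by
    intro u hu
    rw [hg]
    refine add_nonneg hτpos'.le (Finset.sum_nonneg fun a _ => ?_)
    have h1 := hSP a u hu
    have h2 : abs ((if σ a then (1 : ℝ) else -1) * |(aeval u (P a) : ℝ)|) ≤ S a := by
      rw [abs_mul, hsgn, one_mul, abs_abs]
      exact h1
    have h3 := abs_le.1 h2
    linarith [h3.1]
  have hI : ∀ a, Integrable (fun u : Fin N → ℝ => (S a : ℝ) +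
      (if σ a then (1 : ℝ) else -1) * |(aeval u (P a) : ℝ)|)
      (volume.restrict (CVol.ucube (Fin N))) := fun a =>
    (continuousOn_const.integrableOn_compact (OneIneq.ucube_compact _)).add
        ((OneIneq.abs_int (P a)).const_mul _)
  have hI0 : Integrable (fun _ : Fin N → ℝ => (τ : ℝ))
      (volume.restrict (CVol.ucube (Fin N))) :=
    continuousOn_const.integrableOn_compact (OneIneq.ucube_compact _)
  have hgi : ∫ u in CVol.ucube (Fin N), g u = x := by
    rw [hg]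
    rw [integral_add hI0 (integrable_finsetSum _ fun a _ => hI a),
      integral_finsetSum _ fun a _ => hI a]
    have h1 : ∀ a, ∫ u in CVol.ucube (Fin N), ((S a : ℝ) +
          (if σ a then (1 : ℝ) else -1) * |(aeval u (P a) : ℝ)|) = S a +
          (if σ a then (1 : ℝ) else -1) * ∫ u in CVol.ucube (Fin N), |(aeval u (P a) : ℝ)| := by
      intro a
      rw [integral_add (continuousOn_const.integrableOn_compact (OneIneq.ucube_compact _))
        ((OneIneq.abs_int (P a)).const_mul _), cube_one59, integral_const_mul]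
    simp only [h1]
    rw [Finset.sum_add_distrib, cube_one59, hτR]
    linarith [hx']
  have hcons : ∀ (t : Fin N → ℝ) (w : ℝ), F (Fin.cons w t) =
      (τ : ℝ) * (ker m (∏ i, t i) w / ∏ i, (1 + (t i) ^ 2) ^ 2) +
        ∑ a, (ker m (S a * ∏ i, t i) w + (if σ a then (1 : ℝ) else -1) *
          ker m ((aeval (fun i => OneIneq.fk 1 (t i)) (P a) : ℝ) * ∏ i, t i) w) /
            ∏ i, (1 + (t i) ^ 2) ^ 2 := by
    intro t w
    rw [hF]
    simp only [TT, WW, PP, Fin.cons_succ, Fin.cons_zero]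
  have hnn : ∀ z, 0 ≤ F z := by
    intro z
    obtain ⟨A, B, hAB⟩ := hPG
    obtain ⟨h1, h2, h3⟩ := hAB z
    rw [h3]
    refine div_nonneg (le_trans ?_ h2) (by linarith)
    have : (0 : ℝ) ≤ ((τ * m : ℚ) : ℝ) := by push_cast; positivity
    positivity
  have hmain := cube_int F hPG.cont hnn g hgc hg0 (fun t => by
    simp only [hcons t]
    have i1 := fun hh : ℝ => (ker_int hm0 hh).1
    have i2 := fun hh : ℝ => (ker_int hm0 hh).2
    have hA : Integrable fun w : ℝ =>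
        (τ : ℝ) * (ker m (∏ i, t i) w / ∏ i, (1 + (t i) ^ 2) ^ 2) :=
      ((i1 _).div_const _).const_mul _
    have hB : ∀ a, Integrable fun w : ℝ => (ker m (S a * ∏ i, t i) w +
        (if σ a then (1 : ℝ) else -1) *
          ker m ((aeval (fun i => OneIneq.fk 1 (t i)) (P a) : ℝ) * ∏ i, t i) w) /
            ∏ i, (1 + (t i) ^ 2) ^ 2 := fun a =>
      ((i1 _).add ((i1 _).const_mul _)).div_const _
    refine ⟨hA.add (integrable_finsetSum _ fun a _ => hB a), ?_⟩
    rw [integral_add hA (integrable_finsetSum _ fun a _ => hB a),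
      integral_finsetSum _ fun a _ => hB a, integral_const_mul, integral_div, i2]
    have hC : ∀ a, ∫ w : ℝ, (ker m (S a * ∏ i, t i) w +
        (if σ a then (1 : ℝ) else -1) *
          ker m ((aeval (fun i => OneIneq.fk 1 (t i)) (P a) : ℝ) * ∏ i, t i) w) /
            ∏ i, (1 + (t i) ^ 2) ^ 2 =
        (Real.pi * (S a * |∏ i, t i|) + (if σ a then (1 : ℝ) else -1) *
          (Real.pi * (|(aeval (fun i => OneIneq.fk 1 (t i)) (P a) : ℝ)| * |∏ i, t i|))) /
            ∏ i, (1 + (t i) ^ 2) ^ 2 := by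
      intro a
      rw [integral_div, integral_add (i1 _) ((i1 _).const_mul _), integral_const_mul, i2, i2,
        abs_mul, abs_mul, abs_of_pos (hSpos a)]
    simp only [hC]
    rw [rk_prod59, hg]
    beta_reduce
    rw [mul_add, mul_add, Finset.mul_sum, Finset.mul_sum]
    congr 1
    · ring
    · refine Finset.sum_congr rfl fun a _ => ?_
      ring)
  exact ⟨N, τ * m, F, mul_pos hτpos (by linarith), hPG, hFle, hmain.1, by rw [hmain.2, hgi]⟩

end Pool.Agent.R59
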