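import Pool.Agent.W_2cf66e_h59.CF59

/-!
# Convex quadratic volumes: the sign step and the block of one nice set (helper59)

Paper proof: table `proofs`, row 700, steps 5 and 6.
-/

set_option autoImplicit false

noncomputable section

open MeasureTheory MvPolynomial

namespace Pool.Agent.CQ68

open Pool.Agent.QVol (cont_aeval fib int_fib vol_fib int_unit)

theorem SB_one (a c : ℝ) (hc : 0 ≤ c) (ha : a ≤ c) :
    ∫ s in Set.Icc (0 : ℝ) c, max (a - s) 0 = max a 0 ^ 2 / 2 := by
  rw [integral_Icc_eq_integral_Ioc, ← intervalIntegral.integral_of_le hc]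
  rcases le_total a 0 with h | h
  · have h1 : ∫ s in (0 : ℝ)..c, max (a - s) 0 = ∫ s in (0 : ℝ)..c, (0 : ℝ) := by
      refine intervalIntegral.integral_congr fun s hs => ?_
      rw [Set.uIcc_of_le hc] at hs
      exact max_eq_right (by linarith [hs.1])
    rw [h1, max_eq_right h]
    simp
  · have hi : ∀ u v : ℝ, IntervalIntegrable (fun s : ℝ => max (a - s) 0) volume u v := fun u v =>
      (by fun_prop : Continuous fun s : ℝ => max (a - s) 0).intervalIntegrable u v
    rw [← intervalIntegral.integral_add_adjacent_intervals (hi 0 a) (hi a c)]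
    have h1 : ∫ s in (0 : ℝ)..a, max (a - s) 0 = ∫ s in (0 : ℝ)..a, (a - s) := by
      refine intervalIntegral.integral_congr fun s hs => ?_
      rw [Set.uIcc_of_le h] at hs
      exact max_eq_left (by linarith [hs.2])
    have h2 : ∫ s in a..c, max (a - s) 0 = ∫ s in a..c, (0 : ℝ) := by
      refine intervalIntegral.integral_congr fun s hs => ?_
      rw [Set.uIcc_of_le ha] at hs
      exact max_eq_right (by linarith [hs.1])
    rw [h1, h2, max_eq_left h, intervalIntegral.integral_sub (by simp) (by simp),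
      intervalIntegral.integral_const, integral_id]
    simp
    ring

theorem SB_vol {κ : Type} [Fintype κ] {Z : Set (κ → ℝ)} {q : ℚ}
    (hq : ∫ z in Z, (aeval z (1 : MvPolynomial κ ℚ) : ℝ) = q) : volume.real Z = (q : ℝ) := by
  rw [← hq]
  simp

/-- The block of one nice set: `θ` is the maximum of `0` and `2 g V (s z_k - v)` over `Z × [0,C]`,
`V` the volume of `Z × [0,C]`. -/
theorem SB_core {κ : Type} [Fintype κ] {Z : Set (κ → ℝ)} (hZ : Nice Z) (k : κ) (s g C₀ : ℚ)
    (hs : s = 1 ∨ s = -1) (hg : 0 < g) (hC : 0 < C₀) (hb : ∀ z ∈ Z, |z k| ≤ C₀) :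
    CBlock ((g : ℝ) * ∫ z in Z, max ((s : ℝ) * z k) 0 ^ 2)
      (2 * (g : ℝ) * volume.real Z * (C₀ : ℝ) ^ 2) := by
  obtain ⟨q, hq⟩ := hZ.mom 1
  have hq' : volume.real Z = (q : ℝ) := SB_vol hq
  have hfin : volume Z ≠ ⊤ := hZ.cpt.measure_lt_top.ne
  have hq0 : (0 : ℝ) ≤ q := by
    rw [← hq']
    exact measureReal_nonneg
  have hgr : (0 : ℝ) < g := by exact_mod_cast hg
  have hCr : (0 : ℝ) < C₀ := by exact_mod_cast hC
  rcases hq0.eq_or_lt with h0 | h0
  · have h1 : volume Z = 0 := by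
      have h2 : volume.real Z = 0 := by rw [hq', ← h0]
      exact (measureReal_eq_zero_iff hfin).1 h2
    have h2 : ∫ z in Z, max ((s : ℝ) * z k) 0 ^ 2 = 0 := by
      rw [Measure.restrict_eq_zero.2 h1, integral_zero_measure]
    rw [h2, hq', ← h0]
    simpa using CBlock.zero
  have hqq : (0 : ℚ) < q := by exact_mod_cast h0
  have hvol : volume Z = ENNReal.ofReal q := by
    rw [← hq', Measure.real, ENNReal.ofReal_toReal hfin]
  have hsb : ∀ z ∈ Z, (s : ℝ) * z k ≤ C₀ := by
    intro z hz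
    have h1 := abs_le.1 (hb z hz)
    rcases hs with hs | hs
    · rw [hs]
      push_cast
      linarith [h1.2]
    · rw [hs]
      push_cast
      linarith [h1.1]
  set Z' : Set (κ ⊕ Unit → ℝ) := {z | (fun i => z (Sum.inl i)) ∈ Z} ∩
    ({z | 0 ≤ (aeval z (X (Sum.inr ()) : MvPolynomial (κ ⊕ Unit) ℚ) : ℝ)} ∩
      {z | 0 ≤ (aeval z (C C₀ - X (Sum.inr ()) : MvPolynomial (κ ⊕ Unit) ℚ) : ℝ)}) with hZ'
  have hmem : ∀ z : κ ⊕ Unit → ℝ, z ∈ Z' ↔ (fun i => z (Sum.inl i)) ∈ Z ∧
      0 ≤ z (Sum.inr ()) ∧ z (Sum.inr ()) ≤ C₀ := by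
    intro z
    rw [hZ']
    simp only [Set.mem_inter_iff, Set.mem_ofPred_eq, aeval_X, map_sub, aeval_C, sub_nonneg]
    exact Iff.rfl
  have hCS : CS Z' := by
    refine (hZ.cs.ren Sum.inl_injective).inter ((CS.of_cq (IsCQ.of_aff ?_)).inter
      (CS.of_cq (IsCQ.of_aff ?_)))
    · rw [totalDegree_X]
    · refine (totalDegree_sub _ _).trans (max_le ?_ ?_)
      · rw [totalDegree_C]
        exact Nat.zero_le 1
      · rw [totalDegree_X]
  have hcpt : IsCompact Z' := by
    obtain ⟨A, hA⟩ := hZ.cpt.isBounded.subset_closedBall 0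
    refine IsCompact.of_isClosed_subset (isCompact_Icc (a := fun _ : κ ⊕ Unit => -(max |A| C₀))
      (b := fun _ => max |A| C₀)) hCS.closed ?_
    intro z hz
    obtain ⟨h1, h2, h3⟩ := (hmem z).1 hz
    have h4 : ∀ i, |z i| ≤ max |A| C₀ := by
      intro i
      rcases i with i | i
      · refine le_trans ?_ (le_max_left _ _)
        have h5 := hA h1
        rw [mem_closedBall_zero_iff] at h5
        have h6 := norm_le_pi_norm (fun i => z (Sum.inl i)) i
        rw [Real.norm_eq_abs] at h6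
        exact (h6.trans h5).trans (le_abs_self A)
      · refine le_trans ?_ (le_max_right _ _)
        rw [abs_of_nonneg h2]
        exact h3
    rw [Set.mem_Icc]
    exact ⟨fun i => (abs_le.1 (h4 i)).1, fun i => (abs_le.1 (h4 i)).2⟩
  have hf1 : ∀ y ∈ Z, fib Z' y = (MeasurableEquiv.funUnique Unit ℝ) ⁻¹' Set.Icc 0 (C₀ : ℝ) := by
    intro y hy
    ext b
    show Sum.elim y b ∈ Z' ↔ b () ∈ Set.Icc 0 (C₀ : ℝ)
    rw [hmem]
    simp only [Sum.elim_inl, Sum.elim_inr, Set.mem_Icc]
    exact ⟨fun h => h.2, fun h => ⟨hy, h⟩⟩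
  have hf2 : ∀ y, y ∉ Z → fib Z' y = ∅ := by
    intro y hy
    ext b
    simp only [Set.mem_empty_iff_false, iff_false]
    intro hb
    have h2 : Sum.elim y b ∈ Z' := hb
    have h3 := ((hmem _).1 h2).1
    simp only [Sum.elim_inl] at h3
    exact hy h3
  have hvol' : volume Z' = ENNReal.ofReal ((q * C₀ : ℚ) : ℝ) := by
    rw [vol_fib hCS.meas]
    have h1 : (fun y : κ → ℝ => volume (fib Z' y)) = Z.indicator fun _ => ENNReal.ofReal C₀ := by
      funext y
      by_cases hy : y ∈ Z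
      · rw [hf1 y hy, Set.indicator_of_mem hy, (volume_preserving_funUnique Unit ℝ).measure_preimage
          measurableSet_Icc.nullMeasurableSet, Real.volume_Icc, sub_zero]
      · rw [hf2 y hy, Set.indicator_of_notMem hy, measure_empty]
    rw [h1, lintegral_indicator hZ.cs.meas, setLIntegral_const, hvol, mul_comm,
      ← ENNReal.ofReal_mul hq0]
    push_cast
    rfl
  obtain ⟨V, hV⟩ : ∃ V : ℚ, V = q * C₀ := ⟨_, rfl⟩
  have hV0 : (0 : ℚ) < V := by
    rw [hV]
    exact mul_pos hqq hC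
  have hVr : (0 : ℝ) < V := by exact_mod_cast hV0
  set θ : Bool → MvPolynomial (κ ⊕ Unit) ℚ := fun a =>
    if a then C (2 * g * V) * (C s * X (Sum.inl k) - X (Sum.inr ())) else 0 with hθ
  have hval : ∀ z : κ ⊕ Unit → ℝ, (⨆ a, (aeval z (θ a) : ℝ)) =
      2 * g * V * max ((s : ℝ) * z (Sum.inl k) - z (Sum.inr ())) 0 := by
    intro z
    have h1 : (⨆ a, (aeval z (θ a) : ℝ)) = max (aeval z (θ true)) (aeval z (θ false)) := by
      apply le_antisymm
      · refine ciSup_le fun a => ?_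
        cases a
        · exact le_max_right _ _
        · exact le_max_left _ _
      · exact max_le (le_ciSup (f := fun a => (aeval z (θ a) : ℝ)) (Set.finite_range _).bddAbove true)
          (le_ciSup (f := fun a => (aeval z (θ a) : ℝ)) (Set.finite_range _).bddAbove false)
    rw [h1]
    have h2 : (aeval z (θ true) : ℝ) = 2 * g * V * ((s : ℝ) * z (Sum.inl k) - z (Sum.inr ())) := by
      simp [hθ]
    have h3 : (aeval z (θ false) : ℝ) = 2 * g * V * 0 := by
      simp [hθ]
    rw [h2, h3, ← mul_max_of_nonneg _ _ (by positivity : (0 : ℝ) ≤ 2 * g * V)]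
  refine ⟨κ ⊕ Unit, inferInstance, Z', Bool, inferInstance, inferInstance, θ, V, hCS, hcpt,
    fun a => ?_, hV0, by rw [hvol', hV], ?_, fun z hz a => ?_⟩
  · cases a
    · simp [hθ]
    · simp only [hθ, if_true]
      refine (totalDegree_mul _ _).trans ?_
      rw [totalDegree_C, zero_add]
      refine (totalDegree_sub _ _).trans (max_le ?_ ?_)
      · refine (totalDegree_mul _ _).trans ?_
        rw [totalDegree_C, totalDegree_X]
      · rw [totalDegree_X]
  · have hint : IntegrableOn (fun z : κ ⊕ Unit → ℝ => ⨆ a, (aeval z (θ a) : ℝ)) Z' :=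
      (QF_cont θ).continuousOn.integrableOn_compact hcpt
    rw [int_fib hCS.meas _ hint]
    have h1 : (fun y : κ → ℝ => ∫ b in fib Z' y, ⨆ a, (aeval (Sum.elim y b : κ ⊕ Unit → ℝ)
        (θ a) : ℝ)) = Z.indicator fun y => (V : ℝ) * (g * max ((s : ℝ) * y k) 0 ^ 2) := by
      funext y
      by_cases hy : y ∈ Z
      · rw [hf1 y hy, Set.indicator_of_mem hy]
        simp only [hval, Sum.elim_inl, Sum.elim_inr]
        rw [integral_const_mul, ← integral_indicator (measurableSet_Icc.preimage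
          (MeasurableEquiv.funUnique Unit ℝ).measurable), int_unit]
        have h2 : ∀ t : ℝ, ((MeasurableEquiv.funUnique Unit ℝ) ⁻¹' Set.Icc 0 (C₀ : ℝ)).indicator
            (fun b : Unit → ℝ => max ((s : ℝ) * y k - b ()) 0) (fun _ => t) =
            (Set.Icc 0 (C₀ : ℝ)).indicator (fun t => max ((s : ℝ) * y k - t) 0) t := by
          intro t
          rfl
        simp only [h2]
        rw [integral_indicator measurableSet_Icc, SB_one _ _ hCr.le (hsb y hy)]
        ring
      · rw [hf2 y hy, Set.indicator_of_notMem hy]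
        simp
    rw [h1, integral_indicator hZ.cs.meas, integral_const_mul, integral_const_mul]
  · obtain ⟨h1, h2, h3⟩ := (hmem z).1 hz
    have h4 := hsb _ h1
    rw [hq']
    cases a
    · simp only [hθ]
      simp
      positivity
    · have h5 : (aeval z (θ true) : ℝ) = 2 * g * V *
          ((s : ℝ) * z (Sum.inl k) - z (Sum.inr ())) := by
        simp [hθ]
      rw [h5, hV]
      push_cast
      have h6 : (s : ℝ) * z (Sum.inl k) - z (Sum.inr ()) ≤ C₀ := by linarith
      have h7 : (0 : ℝ) ≤ 2 * g * (q * C₀) := by positivity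
      nlinarith [mul_le_mul_of_nonneg_left h6 h7]

/-- Sign step and block of one nice set: `g ∫_Z (z_k)_+^2` is a rational number minus the value of a
block of size `O(|g| vol(Z) C^2)`. -/
theorem sb59 {κ : Type} [Fintype κ] {Z : Set (κ → ℝ)} (hZ : Nice Z) (k : κ) (g C₀ : ℚ)
    (hC : 0 < C₀) (hb : ∀ z ∈ Z, |z k| ≤ C₀) :
    ∃ (c : ℚ) (y : ℝ), (g : ℝ) * ∫ z in Z, max (z k) 0 ^ 2 = c - y ∧ 0 ≤ y ∧
      CBlock y (2 * |(g : ℝ)| * volume.real Z * (C₀ : ℝ) ^ 2) := by
  rcases lt_trichotomy g 0 with hg | hg | hg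
  · have hgr : (g : ℝ) < 0 := by exact_mod_cast hg
    have h1 := SB_core hZ k 1 (-g) C₀ (Or.inl rfl) (by linarith) hC hb
    refine ⟨0, (((-g : ℚ) : ℝ)) * ∫ z in Z, max (((1 : ℚ) : ℝ) * z k) 0 ^ 2, ?_, ?_, ?_⟩
    · push_cast
      simp only [one_mul]
      ring
    · refine mul_nonneg (by push_cast; linarith) (integral_nonneg fun z => by positivity)
    · rw [abs_of_neg hgr]
      push_cast at h1 ⊢
      exact h1
  · refine ⟨0, 0, ?_, le_refl 0, ?_⟩
    · rw [hg]
      simp
    · rw [hg]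
      simpa using CBlock.zero
  · have hgr : (0 : ℝ) < g := by exact_mod_cast hg
    have h1 := SB_core hZ k (-1) g C₀ (Or.inr rfl) hg hC hb
    obtain ⟨c, hc⟩ := hZ.mom (X k ^ 2)
    refine ⟨g * c, (g : ℝ) * ∫ z in Z, max (((-1 : ℚ) : ℝ) * z k) 0 ^ 2, ?_, ?_, ?_⟩
    · push_cast
      rw [← hc, ← mul_sub]
      congr 1
      have hi1 : IntegrableOn (fun z : κ → ℝ => (aeval z (X k ^ 2 : MvPolynomial κ ℚ) : ℝ)) Z :=
        (cont_aeval _).continuousOn.integrableOn_compact hZ.cpt
      have hi2 : IntegrableOn (fun z : κ → ℝ => max (-1 * z k) 0 ^ 2) Z :=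
        (by fun_prop : Continuous fun z : κ → ℝ => max (-1 * z k) 0 ^ 2).continuousOn.integrableOn_compact
          hZ.cpt
      rw [← integral_sub hi1 hi2]
      refine integral_congr_ae (Filter.Eventually.of_forall fun z => ?_)
      simp only [map_pow, aeval_X]
      rcases le_total (z k) 0 with h | h
      · rw [max_eq_right h, max_eq_left (by linarith)]
        ring
      · rw [max_eq_left h, max_eq_right (by linarith)]
        ring
    · exact mul_nonneg hgr.le (integral_nonneg fun z => by positivity)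
    · rw [abs_of_pos hgr]
      exact h1

/-- The literal form of the frame. -/
theorem sign_block {κ : Type} [Fintype κ] {Z : Set (κ → ℝ)} (hZ : Nice Z) (k : κ) (B : ℚ)
    (hB : 0 ≤ B) (hk : ∀ z ∈ Z, |z k| ≤ B) (g : ℚ) :
    ∃ (c : ℚ) (y : ℝ), 0 ≤ y ∧ CBlock y (2 * |(g : ℝ)| * volume.real Z * (B : ℝ) ^ 2) ∧
      (g : ℝ) * ∫ z in Z, max (z k) 0 ^ 2 = c - y := by
  rcases hB.eq_or_lt with h0 | h0
  · refine ⟨0, 0, le_refl 0, ?_, ?_⟩
    · rw [← h0]
      simpa using CBlock.zero
    · have h1 : ∫ z in Z, max (z k) 0 ^ 2 = ∫ z in Z, (0 : ℝ) := by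
        refine setIntegral_congr_fun hZ.cs.meas fun z hz => ?_
        have h2 := hk z hz
        rw [← h0, Rat.cast_zero] at h2
        have h3 : z k = 0 := abs_eq_zero.1 (le_antisymm h2 (abs_nonneg _))
        simp [h3]
      rw [h1]
      simp
  · obtain ⟨c, y, h1, h2, h3⟩ := sb59 hZ k g B h0 hk
    exact ⟨c, y, h2, h3, h1⟩

end Pool.Agent.CQ68
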